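import Pool.Agent.AFL.Stmts

/-!
# Row NBO: the noise on a part of the nodes with a small flux from the block
-/

set_option autoImplicit false

open scoped BigOperators Matrix

noncomputable section

namespace Pool.Agent.AFL.H48

open Pool.Agent.LE.QF Pool.Agent.AFJ Pool.Agent.AFL

theorem nbo : NboStmt := by
  intro hB X _ _ G κ A b S f κv r hN hκv hr hSA hκb hrho
  obtain ⟨h1, h2, -, -, h5, h6⟩ := hB X G κ A f hN
  have key1 : ∀ c ∈ b, (∑ x ∈ S, |(Ec G κ A c *ᵥ f) x|) ^ 2 ≤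
      4 * (r * ∑ x ∈ A, κ x * ‖bet G κ A f x c‖ ^ 2) := by
    intro c hc
    have a1 : ∑ x ∈ S, |(Ec G κ A c *ᵥ f) x| ≤
        2 * ∑ x ∈ S, (Real.sqrt (κ x) * ‖G x c‖) * (Real.sqrt (κ x) * ‖bet G κ A f x c‖) := by
      rw [Finset.mul_sum]
      refine Finset.sum_le_sum fun x hx => ?_
      rw [h1 c x (hSA hx), abs_neg, abs_mul, abs_mul, abs_two, abs_of_pos (hN.hκ x)]
      have b1 : |(G x c * bet G κ A f x c).re| ≤ ‖G x c‖ * ‖bet G κ A f x c‖ := by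
        rw [← norm_mul]; exact Complex.abs_re_le_norm _
      have b2 : Real.sqrt (κ x) * Real.sqrt (κ x) = κ x := Real.mul_self_sqrt (hN.hκ x).le
      calc 2 * κ x * |(G x c * bet G κ A f x c).re|
          ≤ 2 * κ x * (‖G x c‖ * ‖bet G κ A f x c‖) :=
            mul_le_mul_of_nonneg_left b1 (mul_nonneg zero_le_two (hN.hκ x).le)
        _ = 2 * (Real.sqrt (κ x) * Real.sqrt (κ x) * (‖G x c‖ * ‖bet G κ A f x c‖)) := by
            rw [b2]; ring
        _ = _ := by ring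
    have a0 : 0 ≤ ∑ x ∈ S, |(Ec G κ A c *ᵥ f) x| := Finset.sum_nonneg fun x _ => abs_nonneg _
    have a2 := Finset.sum_mul_sq_le_sq_mul_sq S (fun x => Real.sqrt (κ x) * ‖G x c‖)
      (fun x => Real.sqrt (κ x) * ‖bet G κ A f x c‖)
    have a3 : ∑ x ∈ S, (Real.sqrt (κ x) * ‖G x c‖) ^ 2 = ∑ x ∈ S, κ x * KK G x c := by
      refine Finset.sum_congr rfl fun x _ => ?_
      rw [mul_pow, Real.sq_sqrt (hN.hκ x).le, KK]
    have a4 : ∑ x ∈ S, (Real.sqrt (κ x) * ‖bet G κ A f x c‖) ^ 2 ≤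
        ∑ x ∈ A, κ x * ‖bet G κ A f x c‖ ^ 2 := by
      refine le_trans (le_of_eq (Finset.sum_congr rfl fun x _ => by
        rw [mul_pow, Real.sq_sqrt (hN.hκ x).le])) ?_
      exact Finset.sum_le_sum_of_subset_of_nonneg hSA fun x _ _ =>
        mul_nonneg (hN.hκ x).le (sq_nonneg _)
    have a5 : 0 ≤ ∑ x ∈ A, κ x * ‖bet G κ A f x c‖ ^ 2 :=
      Finset.sum_nonneg fun x _ => mul_nonneg (hN.hκ x).le (sq_nonneg _)
    have a6 : 0 ≤ ∑ x ∈ S, κ x * KK G x c :=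
      Finset.sum_nonneg fun x _ => mul_nonneg (hN.hκ x).le (by simp only [KK]; positivity)
    calc (∑ x ∈ S, |(Ec G κ A c *ᵥ f) x|) ^ 2
        ≤ (2 * ∑ x ∈ S, (Real.sqrt (κ x) * ‖G x c‖) *
            (Real.sqrt (κ x) * ‖bet G κ A f x c‖)) ^ 2 := pow_le_pow_left₀ a0 a1 2
      _ = 4 * (∑ x ∈ S, (Real.sqrt (κ x) * ‖G x c‖) *
            (Real.sqrt (κ x) * ‖bet G κ A f x c‖)) ^ 2 := by ring
      _ ≤ 4 * ((∑ x ∈ S, (Real.sqrt (κ x) * ‖G x c‖) ^ 2) *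
            ∑ x ∈ S, (Real.sqrt (κ x) * ‖bet G κ A f x c‖) ^ 2) :=
          mul_le_mul_of_nonneg_left a2 (by norm_num)
      _ ≤ 4 * ((∑ x ∈ S, κ x * KK G x c) * ∑ x ∈ A, κ x * ‖bet G κ A f x c‖ ^ 2) := by
          rw [a3]
          exact mul_le_mul_of_nonneg_left (mul_le_mul_of_nonneg_left a4 a6) (by norm_num)
      _ ≤ _ := mul_le_mul_of_nonneg_left
          (mul_le_mul_of_nonneg_right (hrho c hc) a5) (by norm_num)
  have key2 : ∑ c ∈ b, ∑ x ∈ A, κ x * ‖bet G κ A f x c‖ ^ 2 ≤ 2 / κv * qf (EE G κ A) f := by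
    rw [Finset.sum_comm, h6]
    have c1 : ∀ x ∈ A, ∑ c ∈ b, κ x * ‖bet G κ A f x c‖ ^ 2 ≤ κ x * (DD G κ A f x / κv) := by
      intro x _
      rw [← Finset.mul_sum]
      refine mul_le_mul_of_nonneg_left ?_ (hN.hκ x).le
      rw [le_div_iff₀ hκv, Finset.sum_mul]
      refine (Finset.sum_le_sum fun c hc => ?_).trans (h5 x b)
      rw [mul_comm]
      exact mul_le_mul_of_nonneg_right (hκb c hc) (sq_nonneg _)
    refine (Finset.sum_le_sum c1).trans (le_of_eq ?_)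
    rw [← mul_assoc, Finset.mul_sum]
    refine Finset.sum_congr rfl fun x _ => ?_
    ring
  refine (Finset.sum_le_sum key1).trans ?_
  rw [← Finset.mul_sum, ← Finset.mul_sum]
  calc 4 * (r * ∑ c ∈ b, ∑ x ∈ A, κ x * ‖bet G κ A f x c‖ ^ 2)
      ≤ 4 * (r * (2 / κv * qf (EE G κ A) f)) :=
        mul_le_mul_of_nonneg_left (mul_le_mul_of_nonneg_left key2 hr) (by norm_num)
    _ = _ := by ring

end Pool.Agent.AFL.H48
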