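import Pool.Agent.Helper48_AFL.FLO
import Pool.Agent.Helper48_AFL.Nbo
import Pool.Agent.Helper20_AFL.NET
import Pool.Agent.Helper56_AFL.EUB
import Pool.Agent.Helper56_AFL.PTA
import Pool.Agent.Helper10_AFL.PTL
import Pool.Agent.Helper21_AFL.DRB
import Pool.Agent.Helper67_AFL.NBL
import Pool.Agent.Helper46_AFL.PTG
import Pool.Agent.Helper81_AFL.PTY
import Pool.Agent.Helper82_AFL.KUP
import Pool.Agent.Helper86_AFL.NUB
import Pool.Agent.Helper77_LQF.JAL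
import Pool.Agent.Helper32_LQF.JMA
import Pool.Agent.Helper27_LQF.YTJ
import Pool.Agent.Helper41_LQF.TRI
import Pool.Agent.Helper70_LQF.UFL
import Pool.Agent.Helper2_LQF.FLW
import Pool.Agent.Helper65_LQD.STE
import Pool.Agent.Helper67_LQF.PWU
import Pool.Agent.Helper65_LQF.LMU
import Pool.Agent.Helper6_AFJ.BGJ
import Pool.Agent.Helper92_AFJ.BKJ
import Pool.Agent.Helper32_AFJ.BEJ
import Pool.Agent.Helper44_AFJ.BET
import Pool.Agent.Helper87_AFJ.DRE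
import Pool.Agent.Helper1_AFJ.ENB
import Pool.Agent.Helper1_AFJ.NBW
import Pool.Agent.Helper13_AFJ.LAJ
import Pool.Agent.Helper10_ABY.CMP
import Pool.Agent.Helper10_ABY.TSP
import Pool.Agent.Helper82_ABY.VEX
import Pool.Agent.Helper59_ABY.VJT
import Pool.Agent.Helper19_ABY.VGR
import Pool.Agent.Helper41_ABY.VDR
import Pool.Agent.Helper41_ABY.VBL

/-!
# FLO: the block lemma, without hypotheses
-/

set_option autoImplicit false

open MeasureTheory ProbabilityTheory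

open scoped BigOperators Matrix

noncomputable section

namespace Pool.Agent.AFL.H48

open Pool.Agent.LE.QF Pool.Agent.AFJ Pool.Agent.ABY

theorem jalT : JalStmt := Pool.Agent.LE.QF.H77.jal

theorem jmaT : JmaStmt := Pool.Agent.LE.QF.H32.jma jalT

theorem ytjT : YtjStmt := Pool.Agent.LE.QF.H27.ytj jalT jmaT Pool.Agent.LE.QF.H41.tri

theorem uflT : UflStmt :=
  Pool.Agent.LE.QF.H70.ufl jalT (Pool.Agent.LE.QF.H2.flw Pool.Agent.LE.QD.H65.ste)

/-- FLO, no hypotheses. -/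
theorem floT : FloStmt :=
  flo jalT jmaT ytjT uflT (Pool.Agent.LE.QF.H67.pwu jalT) (Pool.Agent.LE.QF.H65.lmu jalT)
    Pool.Agent.AFJ.H6.bgj Pool.Agent.AFJ.H92.bkj Pool.Agent.AFJ.H32.bej Pool.Agent.AFJ.H13.laj
    Pool.Agent.AFJ.H44.bet_ Pool.Agent.AFJ.H1.nbw Pool.Agent.AFJ.H87.dre Pool.Agent.AFJ.H1.enb
    Pool.Agent.ABY.H10.cmp Pool.Agent.ABY.H82.vex Pool.Agent.ABY.H10.tsp Pool.Agent.ABY.H59.vjt
    Pool.Agent.ABY.H19.vgr Pool.Agent.ABY.H41.vdr Pool.Agent.ABY.H41.vbl Pool.Agent.AFL.H20.net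
    Pool.Agent.AFL.H56.eub Pool.Agent.AFL.H56.pta Pool.Agent.AFL.H82.kup Pool.Agent.AFL.H67.nbl nbo
    Pool.Agent.AFL.H67.ltl Pool.Agent.AFL.H46.ptg Pool.Agent.AFL.H10.ptl Pool.Agent.AFL.H81.pty
    Pool.Agent.AFL.H86.nub Pool.Agent.AFL.H21.drb

end Pool.Agent.AFL.H48
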