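import Pool.Agent.AFL.Stmts
import Pool.Agent.Helper48_AN2.LAD
import Pool.Agent.Helper22_LTG.Lad

/-!
# Block lemma FLO: compression to the box, the ladder of the compression, smoothness
-/

set_option autoImplicit false
set_option linter.unusedSectionVars false

open MeasureTheory ProbabilityTheory Function Filter

open scoped ENNReal BigOperators Topology NNReal Matrix

noncomputable section

namespace Pool.Agent.AFL.H48

open Pool.Agent.LE.QF Pool.Agent.LE.QF.H40 Pool.Agent.AFJ Pool.Agent.ABY Pool.Agent.AN2.H48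

variable {X : Type} [Fintype X] [DecidableEq X]

/-- extension by zero -/
def ex (Q : Finset X) (f : Q → ℝ) (x : X) : ℝ := if h : x ∈ Q then f ⟨x, h⟩ else 0

/-- restriction -/
def rs (Q : Finset X) (φ : X → ℝ) (x : Q) : ℝ := φ x

/-- compression -/
def cp (Q : Finset X) (M : Matrix X X ℝ) : Matrix Q Q ℝ := fun x y => M x y

variable (Q : Finset X)

theorem ex_mem (f : Q → ℝ) (a : Q) : ex Q f a = f a := by
  simp [ex]

theorem ex_out (f : Q → ℝ) (x : X) (h : x ∉ Q) : ex Q f x = 0 := by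
  simp [ex, h]

theorem ex_rs (φ : X → ℝ) (h : ∀ x, x ∉ Q → φ x = 0) : ex Q (rs Q φ) = φ := by
  funext x
  by_cases hx : x ∈ Q
  · simp [ex, rs, hx]
  · rw [ex_out Q _ x hx, h x hx]

theorem rs_ex (f : Q → ℝ) : rs Q (ex Q f) = f := by
  funext a
  rw [rs, ex_mem]

theorem sum_out (ψ : X → ℝ) (h : ∀ x, x ∉ Q → ψ x = 0) : ∑ x, ψ x = ∑ a : Q, ψ a := by
  rw [Finset.sum_coe_sort Q ψ]
  symm
  exact Finset.sum_subset (Finset.subset_univ Q) fun x _ hx => h x hx

theorem sum_ex (f : Q → ℝ) (φ : X → ℝ) : ∑ x, ex Q f x * φ x = ∑ a : Q, f a * φ a := by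
  rw [sum_out Q (fun x => ex Q f x * φ x) fun x hx => by rw [ex_out Q f x hx, zero_mul]]
  exact Finset.sum_congr rfl fun a _ => by rw [ex_mem]

theorem cp_mulVec (M : Matrix X X ℝ) (f : Q → ℝ) : cp Q M *ᵥ f = rs Q (M *ᵥ ex Q f) := by
  funext a
  unfold rs cp Matrix.mulVec dotProduct
  have := sum_ex Q f (fun y => M a y)
  calc ∑ b : Q, M a b * f b = ∑ b : Q, f b * M a b :=
        Finset.sum_congr rfl fun b _ => mul_comm _ _
    _ = ∑ x, ex Q f x * M a x := this.symm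
    _ = _ := Finset.sum_congr rfl fun b _ => mul_comm _ _

theorem qf_cp (M : Matrix X X ℝ) (f : Q → ℝ) : qf (cp Q M) f = qf M (ex Q f) := by
  unfold qf
  rw [sum_ex Q f, cp_mulVec]
  rfl

theorem cp_trans (M : Matrix X X ℝ) (h : Mᵀ = M) : (cp Q M)ᵀ = cp Q M := by
  ext a b
  exact congrFun (congrFun h (a : X)) (b : X)

/-- product with a diagonal matrix which lives on the box -/
theorem cp_diag (M N : Matrix X X ℝ) (d : X → ℝ) (h : ∀ x, x ∉ Q → d x = 0) :
    cp Q (M * Matrix.diagonal d * N) = cp Q M * Matrix.diagonal (fun a : Q => d a) * cp Q N := by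
  ext a b
  rw [Matrix.mul_apply]
  show (M * Matrix.diagonal d * N) a b = _
  rw [Matrix.mul_apply]
  simp only [Matrix.mul_diagonal]
  rw [sum_out Q (fun x => M a x * d x * N x b) fun x hx => by rw [h x hx]; ring]
  rfl

/-! ### the ladder of the compression -/

/-- the compression of the ladder is the ladder of the compression -/
theorem cp_lad {E E1 : Matrix X X ℝ} {τ : X → ℝ} (h : LTG.Lad E E1 τ) (hτ : ∀ x, x ∉ Q → τ x = 0)
    {D : Matrix Q Q ℝ} (hD : Dᵀ * cp Q E * D = 1) {β : Matrix Q Q ℝ}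
    (hβ : β * (D * Dᵀ + Matrix.diagonal fun a : Q => τ a) = 1) : cp Q E1 = β := by
  obtain ⟨hi1, hi2⟩ := inv_of hD
  have e1 : cp Q E1 + cp Q E * Matrix.diagonal (fun a : Q => τ a) * cp Q E1 = cp Q E := by
    rw [← cp_diag Q E E1 τ hτ]
    have := congrArg (cp Q) h.eq
    have e2 : cp Q (E1 + E * Matrix.diagonal τ * E1) = cp Q E1 + cp Q (E * Matrix.diagonal τ * E1) :=
      rfl
    rw [← e2, this]
  have e3 : (D * Dᵀ + Matrix.diagonal fun a : Q => τ a) * cp Q E1 = 1 := by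
    have e4 : (D * Dᵀ) * (cp Q E1 + cp Q E * Matrix.diagonal (fun a : Q => τ a) * cp Q E1) =
        (D * Dᵀ) * cp Q E := by rw [e1]
    rw [mul_add, ← mul_assoc, ← mul_assoc, hi2, one_mul] at e4
    rw [add_mul]
    exact e4
  calc cp Q E1 = (β * (D * Dᵀ + Matrix.diagonal fun a : Q => τ a)) * cp Q E1 := by
        rw [hβ, one_mul]
    _ = β := by rw [mul_assoc, e3, mul_one]

/-! ### smoothness -/

section smooth

variable {V : Type} [NormedAddCommGroup V] [NormedSpace ℝ V] {q : V}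

theorem cd_mul {l m n : Type} [Fintype m] {A : V → Matrix l m ℝ} {B : V → Matrix m n ℝ}
    (hA : ∀ i j, ContDiffAt ℝ 2 (fun r => A r i j) q)
    (hB : ∀ i j, ContDiffAt ℝ 2 (fun r => B r i j) q) :
    ∀ i j, ContDiffAt ℝ 2 (fun r => (A r * B r) i j) q := by
  intro i j
  simp only [Matrix.mul_apply]
  exact ContDiffAt.sum fun k _ => (hA i k).mul (hB k j)

theorem cd_pow {n : Type} [Fintype n] [DecidableEq n] {A : V → Matrix n n ℝ}
    (hA : ∀ i j, ContDiffAt ℝ 2 (fun r => A r i j) q) (k : ℕ) :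
    ∀ i j, ContDiffAt ℝ 2 (fun r => (A r ^ k) i j) q := by
  induction k with
  | zero =>
    intro i j
    simp only [pow_zero]
    exact contDiffAt_const
  | succ k ih =>
    simp only [pow_succ]
    exact cd_mul ih hA

theorem cd_uS {n : Type} [Fintype n] [DecidableEq n] {A : V → Matrix n n ℝ}
    (hA : ∀ i j, ContDiffAt ℝ 2 (fun r => A r i j) q) (ε : ℝ) (k : ℕ) :
    ContDiffAt ℝ 2 (fun r => uS (A r) ε k) q := by
  unfold uS Matrix.trace
  refine ContDiffAt.div_const (ContDiffAt.sum fun i _ => ?_) _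
  exact cd_pow (cd_mul hA fun i j => by simpa only [Matrix.transpose_apply] using hA j i) k i i

theorem cd_nsq {f : V → ℂ} (hf : ContDiffAt ℝ 2 f q) : ContDiffAt ℝ 2 (fun r => ‖f r‖ ^ 2) q :=
  hf.norm_sq ℝ

end smooth

theorem uS_nonneg {n : Type} [Fintype n] [DecidableEq n] {S : Matrix n n ℝ} (hS : Sᵀ = S) (ε : ℝ)
    (k : ℕ) : 0 ≤ uS S ε k := by
  obtain ⟨U, lam, h1, h2, h3⟩ := Pool.Agent.Loc.exists_diag_real hS
  have hpow : (S * Sᵀ) ^ k = U * Matrix.diagonal (fun l => lam l ^ (2 * k)) * Uᵀ := by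
    rw [hS, ← pow_two, ← pow_mul, h3]
  have htr : Matrix.trace ((S * Sᵀ) ^ k) = ∑ i, lam i ^ (2 * k) := by
    rw [hpow, Matrix.trace_mul_comm, ← mul_assoc, h1, one_mul, Matrix.trace_diagonal]
  rw [uS, htr]
  refine div_nonneg (Finset.sum_nonneg fun i _ => ?_) ?_
  · exact (even_two_mul k).pow_nonneg _
  · exact (even_two_mul k).pow_nonneg _

theorem uS_zero {n : Type} [Fintype n] [DecidableEq n] (ε : ℝ) {k : ℕ} (hk : 1 ≤ k) :
    uS (0 : Matrix n n ℝ) ε k = 0 := by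
  rw [uS, zero_mul, zero_pow (by omega), Matrix.trace_zero, zero_div]

/-- from a sum of high powers to each term -/
theorem of_pow_sum {κ : Type} [Fintype κ] {v : κ → ℝ} (hv : ∀ k, 0 ≤ v k) {n : ℕ} (hn : 1 ≤ n)
    (h : ∑ k, v k ^ n ≤ 1) (k : κ) : v k ≤ 1 := by
  have h1 : v k ^ n ≤ 1 := (Finset.single_le_sum (f := fun k => v k ^ n)
    (fun j _ => pow_nonneg (hv j) n) (Finset.mem_univ k)).trans h
  exact (pow_le_one_iff_of_nonneg (hv k) (by omega)).1 h1

theorem of_nsq {κ : Type} [Fintype κ] {v : κ → ℂ} {δ : ℝ} (hδ : 0 < δ) {n : ℕ} (hn : 1 ≤ n)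
    (h : ∑ k, (‖v k‖ ^ 2 / δ ^ 2) ^ n ≤ 1) (k : κ) : ‖v k‖ ≤ δ := by
  have h1 := of_pow_sum (v := fun k => ‖v k‖ ^ 2 / δ ^ 2) (fun j => by positivity) hn h k
  have h2 : ‖v k‖ ^ 2 ≤ δ ^ 2 := by
    have := (div_le_one (by positivity)).1 h1
    exact this
  exact le_of_sq_le_sq₀ h2 hδ.le
where
  le_of_sq_le_sq₀ {a b : ℝ} (h : a ^ 2 ≤ b ^ 2) (hb : 0 ≤ b) : a ≤ b := by
    exact le_of_pow_le_pow_left₀ two_ne_zero hb h

end Pool.Agent.AFL.H48
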