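import Pool.Agent.Helper48_AFL.Prt

/-!
# Block lemma FLO: the proof
-/

set_option autoImplicit false
set_option linter.unusedSectionVars false

open MeasureTheory ProbabilityTheory Function Filter

open scoped ENNReal BigOperators Topology NNReal Matrix

noncomputable section

namespace Pool.Agent.AFL.H48

open Pool.Agent.LE.QF Pool.Agent.LE.QF.H40 Pool.Agent.AFJ Pool.Agent.ABY Pool.Agent.AN2.H48

variable {X : Type} [Fintype X] [DecidableEq X] {F : Fl X} {c₀ C₀ : ℝ} {q : ℝ × (F.b → ℝ)}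

/-! ### smoothness of the parts -/

theorem sG (hB : BJ q F.Gt F.k (F.Gt q) (F.k q.1) F.mb) : ContDiffAt ℝ 2 (uG F) q := by
  unfold uG
  refine ContDiffAt.sum fun p _ => ContDiffAt.pow (ContDiffAt.div_const (cd_nsq ?_) _) _
  exact (hB.hG _ _).sm.sub contDiffAt_const

theorem sL (hB : BJ q F.Gt F.k (F.Gt q) (F.k q.1) F.mb) : ContDiffAt ℝ 2 (uL F) q := by
  unfold uL
  refine ContDiffAt.sum fun a _ => ContDiffAt.pow ?_ _
  simp only [div_one]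
  refine ContDiffAt.div_const ?_ _
  unfold LaR KK
  refine ContDiffAt.sum fun y _ => ContDiffAt.pow (cd_nsq ?_) _
  exact (hB.hG _ _).sm

theorem sY (h : ∀ a ∈ F.Rg,
      ContDiffAt ℝ 2 (fun r => vir (BB (F.Gt r)) (F.Pf r.1) F.w a) q ∧
      ContDiffAt ℝ 2 (fun r => vir (KK (F.Gt r)) (F.Pf r.1) F.w a) q) :
    ContDiffAt ℝ 2 (uY F) q ∧ ContDiffAt ℝ 2 (uK F) q := by
  constructor
  · unfold uY
    refine ContDiffAt.sum fun a _ => ContDiffAt.pow (ContDiffAt.div_const (cd_nsq ?_) _) _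
    exact (h a (Finset.mem_inter.1 a.2).2).1.sub contDiffAt_const
  · unfold uK
    refine ContDiffAt.sum fun a _ => ContDiffAt.pow (ContDiffAt.div_const ?_ _) _
    have e1 : (fun r : ℝ × (F.b → ℝ) => ‖((vir (KK (F.Gt r)) (F.Pf r.1) F.w a -
        vir (KK F.G0) F.P0 F.w a : ℝ) : ℂ)‖ ^ 2) =
        fun r => (vir (KK (F.Gt r)) (F.Pf r.1) F.w a - vir (KK F.G0) F.P0 F.w a) ^ 2 := by
      funext r
      rw [Complex.norm_real, Real.norm_eq_abs, sq_abs]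
    rw [e1]
    exact ((h a (Finset.mem_inter.1 a.2).2).2.sub contDiffAt_const).pow _

theorem sX (jal : JalStmt) (bkj : BkjStmt) (bej : BejStmt) (h : F.Ok c₀ C₀)
    {D β : Matrix F.Q F.Q ℝ} (h0 : 0 ≤ q.1) (h1 : q.1 ≤ F.T) (hβ : Ldr D β q)
    (hB : BJ q F.Gt F.k (F.Gt q) (F.k q.1) F.mb) : ContDiffAt ℝ 2 (uX F D) q := by
  unfold uX
  refine cd_uS ?_ _ _
  refine cd_mul (cd_mul (fun i j => contDiffAt_const) fun i j => ?_) fun i j => contDiffAt_const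
  exact (jE jal bkj bej h h0 h1 hB i j).sm.sub (hβ.jet i j).sm

/-! ### the start -/

theorem start (h : F.Ok c₀ C₀) {D β : Matrix F.Q F.Q ℝ} (hD : Dᵀ * cp F.Q F.E0 * D = 1)
    (hβ : Ldr (F := F) D β (0, 0)) :
    uu F D (0, 0) ≤ F.Q1.card * (1 / (1 + F.ω)) ^ F.nL := by
  obtain ⟨-, -, -, -, -, -, -, hδ, hLp, hω, -, hε0, -, -, -, hε1, hε1', hδY, hn, hnL⟩ := h.num
  have hn0 : F.n ≠ 0 := by omega
  have e1 : uG F (0, 0) = 0 := by
    unfold uG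
    refine Finset.sum_eq_zero fun p _ => ?_
    show (‖F.Gt (0, 0) p.1 p.2 - F.Gt (0, 0) p.1 p.2‖ ^ 2 / F.δ ^ 2) ^ F.n = 0
    rw [sub_self, norm_zero]
    simp [hn0]
  have hPf : F.Pf 0 = F.P0 := by
    funext x
    simp [Fl.Pf]
  have e2 : uY F (0, 0) = 0 := by
    unfold uY
    refine Finset.sum_eq_zero fun a _ => ?_
    show (‖vir (BB (F.Gt (0, 0))) (F.Pf 0) F.w a - vir (BB (F.Gt (0, 0))) F.P0 F.w a‖ ^ 2 /
      F.δY ^ 2) ^ F.n = 0
    rw [hPf, sub_self, norm_zero]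
    simp [hn0]
  have e3 : uK F (0, 0) = 0 := by
    unfold uK
    refine Finset.sum_eq_zero fun a _ => ?_
    show (‖((vir (KK (F.Gt (0, 0))) (F.Pf 0) F.w a - vir (KK (F.Gt (0, 0))) F.P0 F.w a : ℝ) :
      ℂ)‖ ^ 2 / F.δY ^ 2) ^ F.n = 0
    rw [hPf, sub_self]
    simp [hn0]
  have e4 : uX F D (0, 0) = 0 := by
    unfold uX
    have hl : (Matrix.diagonal fun a : F.Q => F.lam 0 a) = 0 := by
      rw [← Matrix.diagonal_zero]
      congr 1
      funext a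
      unfold Fl.lam
      simp
    have e5 : Bm F D (0, 0) = cp F.Q F.E0 := by
      unfold Bm
      show (D * Dᵀ + Matrix.diagonal fun a : F.Q => F.lam 0 a)⁻¹ = _
      rw [hl, add_zero]
      exact Matrix.inv_eq_right_inv (inv_of hD).2
    have e6 : cp F.Q (F.Et (0, 0)) = cp F.Q F.E0 := rfl
    rw [e5, e6, sub_self, mul_zero, zero_mul]
    exact uS_zero _ hn
  have e5 : uL F (0, 0) ≤ F.Q1.card * (1 / (1 + F.ω)) ^ F.nL := by
    unfold uL
    have h1 : ∀ a : F.Q1, (LaR (F.Gt (0, 0)) F.R a / (LaR F.G0 F.R a + F.ω * F.L) /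
        (fun _ : ℝ => (1 : ℝ)) ((0 : ℝ × (F.b → ℝ)).1)) ^ F.nL ≤ (1 / (1 + F.ω)) ^ F.nL := by
      intro a
      simp only [div_one]
      have hp := ell_pos h (a : X)
      have hn := LaR_nonneg F.G0 F.R (a : X)
      refine pow_le_pow_left₀ (div_nonneg hn hp.le) ?_ _
      rw [div_le_div_iff₀ hp (by linarith)]
      have h2 := h.hL a a.2
      have h4 : LaR F.G0 F.R (a : X) * F.ω ≤ F.L / 2 * F.ω :=
        mul_le_mul_of_nonneg_right h2 hω.le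
      have h5 : 0 ≤ F.L / 2 * F.ω := by positivity
      have h3 : LaR F.G0 F.R (a : X) * (1 + F.ω) ≤ 1 * (LaR F.G0 F.R (a : X) + F.ω * F.L) := by
        nlinarith
      exact h3
    refine (Finset.sum_le_sum fun a _ => h1 a).trans (le_of_eq ?_)
    rw [Finset.sum_const, Finset.card_univ, Fintype.card_coe, nsmul_eq_mul]
  unfold uu
  rw [e1, e2, e3, e4]
  linarith

/-! ### the conclusion -/

theorem good_of (h : F.Ok c₀ C₀) {D β : Matrix F.Q F.Q ℝ} (hD : Dᵀ * cp F.Q F.E0 * D = 1)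
    {V : F.b → ℝ} (hβ : Ldr (F := F) D β (F.T, V)) (hu : uu F D (F.T, V) < 1) : F.Good V := by
  obtain ⟨-, -, -, -, -, -, -, hδ, hLp, hω, -, hε0, -, -, -, hε1, hε1', hδY, hn, hnL⟩ := h.num
  have hT := h.hT.le
  have g1 := uG_nonneg F (F.T, V)
  have g2 := uL_nonneg h (F.T, V)
  have g3 := uY_nonneg (F := F) (F.T, V)
  have g4 := uK_nonneg (F := F) (F.T, V)
  have g5 := uX_nonneg h D (F.T, V)
  have hval : Bm F D (F.T, V) = β := by
    ext i j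
    exact (hβ.jet i j).vl
  unfold uu at hu
  have hX : uX F D (F.T, V) = uS (Dᵀ * (cp F.Q (F.Et (F.T, V)) - β) * D) F.ε₁ F.n := by
    unfold uX; rw [hval]
  obtain ⟨hP, hX'⟩ := pt_of h hD (q := (F.T, V)) hT le_rfl hβ (et_symm h _) (by linarith)
    (by linarith) (by rw [← hX]; linarith)
  refine ⟨hP.ent, hP.lam, ?_, ?_, ?_⟩
  · intro x hx hx'
    exact of_nsq hδY hn (show uY F (F.T, V) ≤ 1 by linarith) ⟨x, Finset.mem_inter.2 ⟨hx, hx'⟩⟩
  · intro x hx hx'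
    have h1 := of_nsq hδY hn (show uK F (F.T, V) ≤ 1 by linarith)
      ⟨x, Finset.mem_inter.2 ⟨hx, hx'⟩⟩
    rwa [Complex.norm_real, Real.norm_eq_abs] at h1
  · intro E1 hE1 f hf
    have h1 : cp F.Q E1 = β := by
      refine cp_lad F.Q hE1 (fun x hx => ?_) hD hβ.inv
      exact lam_o F (fun h' => hx (h.hQ.2.1 (h.hQ.1 h'))) _
    have h2 := hX' (rs F.Q f)
    have h3 := hβ.ge (rs F.Q f)
    have e1 : qf (cp F.Q (F.Et (F.T, V)) - β) (rs F.Q f) =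
        qf (F.Et (F.T, V)) f - qf E1 f := by
      rw [sub_eq_add_neg, qf_add, qf_neg, ← h1, qf_cp, qf_cp, ex_rs _ _ hf]
      ring
    have e2 : qf β (rs F.Q f) = qf E1 f := by rw [← h1, qf_cp, ex_rs _ _ hf]
    rw [e1] at h2
    rw [e2] at h3
    have h4 : F.ε₁ * qf (cp F.Q F.E0) (rs F.Q f) ≤ F.ε₁ * (2 * qf E1 f) :=
      mul_le_mul_of_nonneg_left h3 hε1.le
    linarith

/-- FLO. -/
theorem flo (jal : JalStmt) (jma : JmaStmt) (ytj : YtjStmt) (ufl : UflStmt) (pwu : PwuStmt)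
    (lmu : LmuStmt) (bgj : BgjStmt) (bkj : BkjStmt) (bej : BejStmt) (laj : LajStmt)
    (bet : BetStmt) (nbw : NbwStmt) (dre : DreStmt) (enb : EnbStmt) (cmp : CmpStmt)
    (vex : VexStmt) (tsp : TspStmt) (vjt : VjtStmt) (vgr : VgrStmt) (vdr : VdrStmt)
    (vbl : VblStmt) (net : NetStmt) (eub : EubStmt) (pta : PtaStmt) (kup : KupStmt)
    (nbl : NblStmt) (nbo : NboStmt) (ltl : LtlStmt) (ptg : PtgStmt) (ptl : PtlStmt) (pty : PtyStmt)
    (nub : NubStmt) (drb : DrbStmt) : FloStmt := by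
  intro c₀ C₀
  obtain ⟨C, hC, hY⟩ := pty jal jma bkj enb cmp vex tsp vjt vgr vdr vbl eub pta c₀ C₀
  refine ⟨C, hC, ?_⟩
  intro X _ _ F h
  obtain ⟨hκ, -, hr, hc, -, hC₀, hN, hδ, hL, hω, -, hε, -, hs1, hs2, hε₁, -, -, hn, hnL⟩ := h.num
  have hT := h.hT
  have hnet : ∀ q : ℝ × (F.b → ℝ), 0 ≤ q.1 → q.1 ≤ F.T →
      BJ q F.Gt F.k (F.Gt q) (F.k q.1) F.mb ∧ Net (F.Gt q) (F.k q.1) := fun q h0 h1 =>
    net jal jma bgj X F c₀ C₀ q h h0 h1
  have n0 : Net F.G0 (F.k 0) := (hnet (0, 0) le_rfl hT.le).2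
  obtain ⟨D, hD⟩ := exD h (et_symm h (0, 0))
  have hdrb : ∀ q : ℝ × (F.b → ℝ), 0 ≤ q.1 → q.1 ≤ F.T → _ := fun q h0 h1 =>
    drb bet dre eub pta X F c₀ C₀ q h (hnet q h0 h1).2 n0
  have hldr : ∀ q : ℝ × (F.b → ℝ), 0 ≤ q.1 → q.1 ≤ F.T → ∃ β, Ldr (F := F) D β q :=
    fun q h0 h1 => ldr jal jma h hD h0 h1 ((hdrb q h0 h1).2.2 h0 h1)
  have hrt := rt_nonneg h hC
  have hG := aG_nonneg h
  have hLa := aL_nonneg h
  have hYa := aY_nonneg h hC
  have hS := aS_nonneg h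
  have hcd := cd_nonneg (F := F)
  have hp4 : (0 : ℝ) ≤ (1 / 4) ^ F.n := by positivity
  have hp4' : (1 / 4 : ℝ) ^ F.nL ≤ (1 / 4) ^ F.n :=
    pow_le_pow_of_le_one (by norm_num) (by norm_num) hnL
  -- the functional
  have main : ∀ q : ℝ × (F.b → ℝ), 0 ≤ q.1 → q.1 ≤ F.T → 0 ≤ uu F D q ∧
      ((∀ᶠ r in 𝓝 q, 1 ≤ uu F D r) ∨ (ContDiffAt ℝ 2 (uu F D) q ∧
        (uu F D q < 1 → LL (uu F D) q ≤ (fun _ => F.rt c₀ C₀ C) q.1 * uu F D q +
          (fun _ => F.rt c₀ C₀ C * (F.cd * (1 / 4) ^ F.n)) q.1))) := by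
    intro q h0 h1
    have g1 := uG_nonneg F
    have g2 := uL_nonneg h
    have g3 := uY_nonneg (F := F)
    have g4 := uK_nonneg (F := F)
    have g5 := uX_nonneg h D
    obtain ⟨hB, hN'⟩ := hnet q h0 h1
    refine ⟨by unfold uu; linarith [g1 q, g2 q, g3 q, g4 q, g5 q], ?_⟩
    by_cases hG1 : uG F q ≤ 1
    swap
    · left
      have hcont : ContinuousAt (uG F) q := (sG hB).continuousAt
      have : ∀ᶠ r in 𝓝 q, 1 < uG F r := hcont.eventually (lt_mem_nhds (not_le.1 hG1))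
      filter_upwards [this] with r hr1
      unfold uu
      linarith [g2 r, g3 r, g4 r, g5 r]
    right
    obtain ⟨β, hβ⟩ := hldr q h0 h1
    have hval : Bm F D q = β := by
      ext i j
      exact (hβ.jet i j).vl
    obtain ⟨hY1, hY2⟩ := hY X F q h hB hN' n0
    have hYs := sY (hY2 h0 h1 fun x hx => of_nsq hδ hn hG1 (⟨x, hx⟩, ⟨x, hx⟩))
    have hsm : ContDiffAt ℝ 2 (uu F D) q := by
      unfold uu
      exact ((((sG hB).add (sL hB)).add hYs.1).add hYs.2).add (sX jal bkj bej h h0 h1 hβ hB)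
    refine ⟨hsm, fun hu => ?_⟩
    have hu' := hu
    unfold uu at hu'
    have hX : uX F D q = uS (Dᵀ * (cp F.Q (F.Et q) - β) * D) F.ε₁ F.n := by
      unfold uX; rw [hval]
    obtain ⟨hP, -⟩ := pt_of h hD h0 h1 hβ (et_symm h q) hG1
      (by linarith [g1 q, g2 q, g3 q, g4 q, g5 q])
      (by rw [← hX]; linarith [g1 q, g2 q, g3 q, g4 q, g5 q])
    obtain ⟨a1, l1, j1, b1⟩ := jG pwu h
      (ptg jal bkj enb eub pta X F c₀ C₀ q h hP hB hN' n0)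
    obtain ⟨a2, l2, j2, b2⟩ := jL lmu h
      (ptl jal bkj enb laj ltl eub pta kup X F c₀ C₀ q h hP hB hN' n0)
    obtain ⟨⟨a3, l3, j3, b3⟩, a4, l4, j4, b4⟩ := jYK jal pwu h hC (hY1 hP)
    obtain ⟨a5, l5, j5, b5⟩ := jX jal jma ytj bkj bej h hD h0 h1 hβ hB hP
      ((hdrb q h0 h1).1 hP) ((hdrb q h0 h1).2.1 h0 h1)
      (nub bet nbw nbl nbo eub pta X F c₀ C₀ q h hP hN' n0)
    have s1 := ((jal F.b ℝ q).2.2.1 _ _ _ _ _ _ _ _ j1 j2).1
    have s2 := ((jal F.b ℝ q).2.2.1 _ _ _ _ _ _ _ _ s1 j3).1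
    have s3 := ((jal F.b ℝ q).2.2.1 _ _ _ _ _ _ _ _ s2 j4).1
    have s4 := ((jal F.b ℝ q).2.2.1 _ _ _ _ _ _ _ _ s3 j5).1
    have e1 : LL (uu F D) q = l1 + l2 + l3 + l4 + l5 := s4.ge
    rw [e1]
    show l1 + l2 + l3 + l4 + l5 ≤ F.rt c₀ C₀ C * uu F D q +
      F.rt c₀ C₀ C * (F.cd * (1 / 4) ^ F.n)
    have hq1 : (0 : ℝ) ≤ F.Q1.card := Nat.cast_nonneg _
    have hq : (0 : ℝ) ≤ F.Q.card := Nat.cast_nonneg _
    have t1 : l1 ≤ F.aG * (uu F D q + F.cd * (1 / 4) ^ F.n) := by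
      refine b1.trans (mul_le_mul_of_nonneg_left (add_le_add ?_ ?_) hG)
      · unfold uu; linarith [g1 q, g2 q, g3 q, g4 q, g5 q]
      · refine mul_le_mul_of_nonneg_right ?_ hp4
        unfold Fl.cd; linarith
    have t2 : l2 ≤ F.aL C₀ * (uu F D q + F.cd * (1 / 4) ^ F.n) := by
      refine b2.trans (mul_le_mul_of_nonneg_left (add_le_add ?_ ?_) hLa)
      · unfold uu; linarith [g1 q, g2 q, g3 q, g4 q, g5 q]
      · refine (mul_le_mul_of_nonneg_left hp4' hq1).trans (mul_le_mul_of_nonneg_right ?_ hp4)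
        unfold Fl.cd
        nlinarith [sq_nonneg (F.Q1.card : ℝ)]
    have t3 : l3 ≤ F.aY C * (uu F D q + F.cd * (1 / 4) ^ F.n) := by
      refine b3.trans (mul_le_mul_of_nonneg_left (add_le_add ?_ ?_) hYa)
      · unfold uu; linarith [g1 q, g2 q, g3 q, g4 q, g5 q]
      · refine mul_le_mul_of_nonneg_right ?_ hp4
        unfold Fl.cd
        nlinarith [sq_nonneg (F.Q1.card : ℝ)]
    have t4 : l4 ≤ F.aY C * (uu F D q + F.cd * (1 / 4) ^ F.n) := by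
      refine b4.trans (mul_le_mul_of_nonneg_left (add_le_add ?_ ?_) hYa)
      · unfold uu; linarith [g1 q, g2 q, g3 q, g4 q, g5 q]
      · refine mul_le_mul_of_nonneg_right ?_ hp4
        unfold Fl.cd
        nlinarith [sq_nonneg (F.Q1.card : ℝ)]
    have t5 : l5 ≤ F.aS c₀ * (uu F D q + F.cd * (1 / 4) ^ F.n) := by
      refine b5.trans (mul_le_mul_of_nonneg_left (add_le_add ?_ ?_) hS)
      · unfold uu; linarith [g1 q, g2 q, g3 q, g4 q, g5 q]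
      · refine mul_le_mul_of_nonneg_right ?_ hp4
        unfold Fl.cd
        nlinarith [sq_nonneg (F.Q1.card : ℝ)]
    have e2 : F.rt c₀ C₀ C * uu F D q + F.rt c₀ C₀ C * (F.cd * (1 / 4) ^ F.n) =
        F.aG * (uu F D q + F.cd * (1 / 4) ^ F.n) + F.aL C₀ * (uu F D q + F.cd * (1 / 4) ^ F.n) +
        F.aY C * (uu F D q + F.cd * (1 / 4) ^ F.n) + F.aY C * (uu F D q + F.cd * (1 / 4) ^ F.n) +
        F.aS c₀ * (uu F D q + F.cd * (1 / 4) ^ F.n) := by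
      unfold Fl.rt; ring
    rw [e2]
    linarith
  have key := ufl F.b F.T (fun _ => F.rt c₀ C₀ C) (fun _ => F.rt c₀ C₀ C * (F.cd * (1 / 4) ^ F.n))
    (uu F D) hT continuous_const continuous_const
    (fun _ => ⟨hrt, mul_nonneg hrt (mul_nonneg hcd hp4)⟩) main
  have hsub : {V : F.b → ℝ | ¬ F.Good V} ⊆ {V | 1 ≤ uu F D (F.T, V)} := by
    intro V hV
    by_contra hlt
    obtain ⟨β, hβ⟩ := hldr (F.T, V) hT.le le_rfl
    exact hV (good_of h hD hβ (not_le.1 hlt))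
  refine (measure_mono hsub).trans (key.trans (ENNReal.ofReal_le_ofReal ?_))
  obtain ⟨β, hβ⟩ := hldr (0, 0) le_rfl hT.le
  have h2 := start h hD hβ
  rw [intervalIntegral.integral_const, intervalIntegral.integral_const, sub_zero, smul_eq_mul,
    smul_eq_mul, mul_comm F.T (F.rt c₀ C₀ C)]
  unfold Fl.pr
  have h3 : 0 < Real.exp (3 * (F.rt c₀ C₀ C * F.T)) := Real.exp_pos _
  calc Real.exp (3 * (F.rt c₀ C₀ C * F.T)) * (3 * uu F D (0, 0) +
        3 * (F.T * (F.rt c₀ C₀ C * (F.cd * (1 / 4) ^ F.n)))) ≤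
      Real.exp (3 * (F.rt c₀ C₀ C * F.T)) * (3 * (F.Q1.card * (1 / (1 + F.ω)) ^ F.nL) +
        3 * (F.T * (F.rt c₀ C₀ C * (F.cd * (1 / 4) ^ F.n)))) := by
        refine mul_le_mul_of_nonneg_left ?_ h3.le
        linarith
    _ = _ := by ring

end Pool.Agent.AFL.H48
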