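import Pool.Agent.Helper48_AFL.Cmp
import Pool.Agent.AWD.Dri

/-!
# Block lemma FLO: the functional
-/

set_option autoImplicit false
set_option linter.unusedSectionVars false

open MeasureTheory ProbabilityTheory Function Filter

open scoped ENNReal BigOperators Topology NNReal Matrix

noncomputable section

namespace Pool.Agent.AFL.H48

open Pool.Agent.LE.QF Pool.Agent.LE.QF.H40 Pool.Agent.AFJ Pool.Agent.ABY Pool.Agent.AN2.H48

variable {X : Type} [Fintype X] [DecidableEq X]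

/-! ### the clocks -/

section clocks

variable (F : Fl X)

theorem k_b {x : X} (hx : x ∈ F.b) (t : ℝ) : F.k t x = F.k 0 x - t * F.g x := by
  unfold Fl.k Blk.kp Fl.g
  simp only [hx, if_true]
  ring

theorem k_o {x : X} (hx : x ∉ F.b) (t : ℝ) : F.k t x = F.k 0 x := by
  unfold Fl.k Blk.kp
  simp only [hx, if_false]

theorem lam_b {x : X} (hx : x ∈ F.b) (t : ℝ) :
    F.lam t x = 1 / F.g x * (1 / F.k t x - 1 / F.k 0 x) := by
  unfold Fl.lam
  rw [if_pos hx]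

theorem lam_o {x : X} (hx : x ∉ F.b) (t : ℝ) : F.lam t x = 0 := by
  unfold Fl.lam
  rw [if_neg hx]

variable {F}
variable {c₀ C₀ : ℝ}

theorem g_pos (h : F.Ok c₀ C₀) {x : X} (hx : x ∈ F.A) : 0 < F.g x :=
  h.num.2.2.2.1.trans_le (h.hg x hx).1

theorem bA (h : F.Ok c₀ C₀) : F.b ⊆ F.A := h.hQ.1.trans (h.hQ.2.1.trans h.hQ.2.2)

theorem lam_jet (h : F.Ok c₀ C₀) {t : ℝ} (h0 : 0 ≤ t) (h1 : t ≤ F.T) (x : X) :
    ContDiffAt ℝ 2 (fun t => F.lam t x) t ∧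
      deriv (fun t => F.lam t x) t = ind F.b x / F.k t x ^ 2 := by
  by_cases hx : x ∈ F.b
  · have hk : F.k t x ≠ 0 := (h.pos t x h0 h1).ne'
    have hg : F.g x ≠ 0 := (g_pos h (bA h hx)).ne'
    have e1 : (fun t => F.lam t x) =
        fun t => 1 / F.g x * (1 / (F.k 0 x - t * F.g x) - 1 / F.k 0 x) := by
      funext t
      rw [lam_b F hx, k_b F hx t]
    have hk' : F.k 0 x - t * F.g x ≠ 0 := by rw [← k_b F hx t]; exact hk
    have hd : HasDerivAt (fun t => F.k 0 x - t * F.g x) (-F.g x) t := by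
      have := ((hasDerivAt_id t).mul_const (F.g x)).const_sub (F.k 0 x)
      simpa using this
    constructor
    · rw [e1]
      refine contDiffAt_const.mul (ContDiffAt.sub ?_ contDiffAt_const)
      simp only [one_div]
      refine ContDiffAt.inv ?_ hk'
      exact contDiffAt_const.sub (contDiffAt_id.mul contDiffAt_const)
    · rw [e1]
      have h2 : HasDerivAt (fun t => 1 / F.g x * (1 / (F.k 0 x - t * F.g x) - 1 / F.k 0 x))
          (1 / F.g x * (-(-F.g x) / (F.k 0 x - t * F.g x) ^ 2)) t := by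
        have h3 := (hd.inv hk').sub_const (1 / F.k 0 x)
        have h4 := h3.const_mul (1 / F.g x)
        simpa only [one_div, Pi.inv_apply] using h4
      rw [h2.deriv, ind, if_pos hx, k_b F hx t]
      field_simp
  · have e1 : (fun t => F.lam t x) = fun _ => (0 : ℝ) := by
      funext t
      rw [lam_o F hx]
    rw [e1]
    refine ⟨contDiffAt_const, ?_⟩
    simp [ind, hx]

/-- the ladder in the lower bound -/
theorem lam_le (h : F.Ok c₀ C₀) {t : ℝ} (h0 : 0 ≤ t) (h1 : t ≤ F.T) {x : X} (hx : x ∈ F.A) :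
    (1 + F.ε) * (1 / (F.k 0 x * F.g x)) + F.lam t x ≤ (1 + F.ε) * (1 / (F.k t x * F.g x)) := by
  have hg := g_pos h hx
  have hε : 0 ≤ F.ε := h.num.2.2.2.2.2.2.2.2.2.2.2.1
  by_cases hb : x ∈ F.b
  · have hk := h.pos t x h0 h1
    have hk0 := h.pos 0 x le_rfl h.hT.le
    have hle : F.k t x ≤ F.k 0 x := by
      rw [k_b F hb t]
      have := mul_nonneg h0 hg.le
      linarith
    have e1 : F.lam t x = 1 / (F.k t x * F.g x) - 1 / (F.k 0 x * F.g x) := by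
      rw [lam_b F hb]
      field_simp
    have e2 : 1 / (F.k 0 x * F.g x) ≤ 1 / (F.k t x * F.g x) :=
      one_div_le_one_div_of_le (mul_pos hk hg) (mul_le_mul_of_nonneg_right hle hg.le)
    rw [e1]
    nlinarith [mul_nonneg hε (sub_nonneg.2 e2)]
  · rw [lam_o F hb, k_o F hb t, add_zero]

end clocks

/-! ### the parts of the functional -/

variable (F : Fl X)

/-- entries -/
def uG (r : ℝ × (F.b → ℝ)) : ℝ :=
  ∑ p : F.Q1 × F.Q1, (‖F.Gt r p.1 p.2 - F.G0 p.1 p.2‖ ^ 2 / F.δ ^ 2) ^ F.n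

/-- `Λ` -/
def uL (r : ℝ × (F.b → ℝ)) : ℝ :=
  ∑ a : F.Q1, (LaR (F.Gt r) F.R a / (LaR F.G0 F.R a + F.ω * F.L) / (fun _ : ℝ => (1 : ℝ)) r.1) ^ F.nL

/-- the complex part of the pair -/
def uY (r : ℝ × (F.b → ℝ)) : ℝ :=
  ∑ a : (F.Q1 ∩ F.Rg : Finset X), (‖vir (BB (F.Gt r)) (F.Pf r.1) F.w a -
    vir (BB F.G0) F.P0 F.w a‖ ^ 2 / F.δY ^ 2) ^ F.n

/-- the real part of the pair -/
def uK (r : ℝ × (F.b → ℝ)) : ℝ :=
  ∑ a : (F.Q1 ∩ F.Rg : Finset X), (‖((vir (KK (F.Gt r)) (F.Pf r.1) F.w a -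
    vir (KK F.G0) F.P0 F.w a : ℝ) : ℂ)‖ ^ 2 / F.δY ^ 2) ^ F.n

/-- the ladder -/
def Bm (D : Matrix F.Q F.Q ℝ) (r : ℝ × (F.b → ℝ)) : Matrix F.Q F.Q ℝ :=
  (D * Dᵀ + Matrix.diagonal fun a : F.Q => F.lam r.1 a)⁻¹

/-- the form -/
def uX (D : Matrix F.Q F.Q ℝ) (r : ℝ × (F.b → ℝ)) : ℝ :=
  uS (Dᵀ * (cp F.Q (F.Et r) - Bm F D r) * D) F.ε₁ F.n

/-- the functional -/
def uu (D : Matrix F.Q F.Q ℝ) (r : ℝ × (F.b → ℝ)) : ℝ :=
  uG F r + uL F r + uY F r + uK F r + uX F D r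

theorem uG_nonneg (r : ℝ × (F.b → ℝ)) : 0 ≤ uG F r :=
  Finset.sum_nonneg fun _ _ => by positivity

theorem LaR_nonneg (G : Matrix X X ℂ) (R : Finset X) (x : X) : 0 ≤ LaR G R x :=
  Finset.sum_nonneg fun _ _ => sq_nonneg _

variable {F} {c₀ C₀ : ℝ}

theorem ell_pos (h : F.Ok c₀ C₀) (x : X) : 0 < LaR F.G0 F.R x + F.ω * F.L :=
  add_pos_of_nonneg_of_pos (LaR_nonneg _ _ _)
    (mul_pos h.num.2.2.2.2.2.2.2.2.2.1 h.num.2.2.2.2.2.2.2.2.1)

theorem uL_nonneg (h : F.Ok c₀ C₀) (r : ℝ × (F.b → ℝ)) : 0 ≤ uL F r := by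
  refine Finset.sum_nonneg fun a _ => pow_nonneg ?_ _
  simp only [div_one]
  exact div_nonneg (LaR_nonneg _ _ _) (ell_pos h _).le

theorem uY_nonneg (r : ℝ × (F.b → ℝ)) : 0 ≤ uY F r :=
  Finset.sum_nonneg fun _ _ => by positivity

theorem uK_nonneg (r : ℝ × (F.b → ℝ)) : 0 ≤ uK F r :=
  Finset.sum_nonneg fun _ _ => by positivity

end Pool.Agent.AFL.H48
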