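import Pool.Agent.Helper48_AFL.Fun

/-!
# Block lemma FLO: the form at a point
-/

set_option autoImplicit false
set_option linter.unusedSectionVars false

open MeasureTheory ProbabilityTheory Function Filter

open scoped ENNReal BigOperators Topology NNReal Matrix

noncomputable section

namespace Pool.Agent.AFL.H48

open Pool.Agent.LE.QF Pool.Agent.LE.QF.H40 Pool.Agent.AFJ Pool.Agent.ABY Pool.Agent.AN2.H48

/-! ### duality -/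

section dual

variable {n : Type} [Fintype n] [DecidableEq n] {X₀ D : Matrix n n ℝ}

theorem dual_eq (hD : Dᵀ * X₀ * D = 1) (φ : n → ℝ) :
    qf (D * Dᵀ) φ = 2 * (((D * Dᵀ) *ᵥ φ) ⬝ᵥ φ) - qf X₀ ((D * Dᵀ) *ᵥ φ) := by
  have h1 : qf (D * Dᵀ) φ = ((D * Dᵀ) *ᵥ φ) ⬝ᵥ φ := by rw [qf_dot, dotProduct_comm]
  have h2 : qf X₀ ((D * Dᵀ) *ᵥ φ) = ((D * Dᵀ) *ᵥ φ) ⬝ᵥ φ := by
    rw [← Matrix.mulVec_mulVec, qf_D hD, dotProduct_comm _ φ, tr_dot D φ]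
  rw [h1, h2]
  ring

theorem dual_le (hD : Dᵀ * X₀ * D = 1) (f φ : n → ℝ) :
    2 * (f ⬝ᵥ φ) - qf X₀ f ≤ qf (D * Dᵀ) φ := by
  obtain ⟨hi1, hi2⟩ := inv_of hD
  set v := Dᵀ *ᵥ (X₀ *ᵥ f) with hv
  have h1 : D *ᵥ v = f := by
    rw [hv, Matrix.mulVec_mulVec, Matrix.mulVec_mulVec, hi2, Matrix.one_mulVec]
  have h2 : f ⬝ᵥ φ = v ⬝ᵥ (Dᵀ *ᵥ φ) := by
    rw [← h1, dotProduct_comm, tr_dot, dotProduct_comm]
  have h3 : qf X₀ f = v ⬝ᵥ v := by rw [← h1, qf_D hD]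
  have h4 : qf (D * Dᵀ) φ = (Dᵀ *ᵥ φ) ⬝ᵥ (Dᵀ *ᵥ φ) := by
    rw [qf_dot, ← Matrix.mulVec_mulVec, tr_dot]
  have h5 : 0 ≤ (v - Dᵀ *ᵥ φ) ⬝ᵥ (v - Dᵀ *ᵥ φ) := dot_nn _
  rw [sub_dotProduct, dotProduct_sub, dotProduct_sub, dotProduct_comm (Dᵀ *ᵥ φ) v] at h5
  rw [h2, h3, h4]
  linarith

theorem young {A β : Matrix n n ℝ} (h1 : β * A = 1) (hs : βᵀ = β) (hp : ∀ f, 0 ≤ qf β f)
    (f φ : n → ℝ) : 2 * (f ⬝ᵥ φ) - qf A φ ≤ qf β f := by
  have h2 := hp (f - A *ᵥ φ)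
  have h3 : β *ᵥ (A *ᵥ φ) = φ := by rw [Matrix.mulVec_mulVec, h1, Matrix.one_mulVec]
  rw [qf_sub' hs, h3, qf_dot β (A *ᵥ φ), h3, dotProduct_comm (A *ᵥ φ) φ, ← qf_dot] at h2
  linarith

end dual

variable {X : Type} [Fintype X] [DecidableEq X] {F : Fl X} {c₀ C₀ : ℝ}

theorem dot_rs (f : F.Q → ℝ) (φ : X → ℝ) : f ⬝ᵥ rs F.Q φ = ∑ x, ex F.Q f x * φ x := by
  rw [sum_ex]; rfl

theorem ex_smul (Q : Finset X) (t : ℝ) (f : Q → ℝ) : ex Q (t • f) = fun x => t * ex Q f x := by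
  funext x
  by_cases hx : x ∈ Q
  · simp [ex, hx]
  · rw [ex_out Q _ x hx, ex_out Q _ x hx, mul_zero]

/-- the form at the start is positive definite on the box -/
theorem exD (h : F.Ok c₀ C₀) (hs : (F.E0)ᵀ = F.E0) :
    ∃ D : Matrix F.Q F.Q ℝ, Dᵀ * cp F.Q F.E0 * D = 1 := by
  have hε0 : 0 ≤ F.ε := h.num.2.2.2.2.2.2.2.2.2.2.2.1
  have hε1 : F.ε ≤ 1 := h.num.2.2.2.2.2.2.2.2.2.2.2.2.1
  have hs1 : 0 ≤ F.s1 := h.num.2.2.2.2.2.2.2.2.2.2.2.2.2.1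
  have hkg : ∀ x ∈ F.Q, 0 < F.k 0 x * F.g x := fun x hx =>
    mul_pos (h.pos 0 x le_rfl h.hT.le) (g_pos h (h.hQ.2.2 hx))
  set K1 : ℝ := ∑ x ∈ F.Q, 2 / (F.k 0 x * F.g x) with hK1
  have hK1n : 0 ≤ K1 := Finset.sum_nonneg fun x hx => div_nonneg (by norm_num) (hkg x hx).le
  obtain ⟨hs3, -⟩ := h.hs3
  set K : ℝ := 1 + K1 + (F.s1 + F.s3) * F.Q.card with hK
  have hKp : 0 < K := by positivity
  refine fac (cp_trans F.Q _ hs) (e₀ := 1 / K) (by positivity) fun f => ?_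
  set S : ℝ := f ⬝ᵥ f with hS
  have hSn : 0 ≤ S := dot_nn f
  have hsq : ∑ a : F.Q, f a ^ 2 = S := sq_dot f
  set φ : X → ℝ := fun x => 1 / K * ex F.Q f x with hφ
  have h1 := h.hS1 (ex F.Q f) φ (fun x hx => ex_out _ _ x hx) (fun x hx => by
    rw [hφ]; simp only; rw [ex_out _ _ x hx, mul_zero])
  have e1 : ∑ x, ex F.Q f x * φ x = 1 / K * S := by
    rw [sum_ex F.Q f φ, hS, dotProduct, Finset.mul_sum]
    exact Finset.sum_congr rfl fun a _ => by rw [hφ]; simp only; rw [ex_mem]; ring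
  have e2 : 2 * ∑ x ∈ F.Q, φ x ^ 2 / (F.k 0 x * F.g x) ≤ (1 / K) ^ 2 * (K1 * S) := by
    rw [← Finset.sum_coe_sort F.Q (fun x => φ x ^ 2 / (F.k 0 x * F.g x)), Finset.mul_sum, ← hsq,
      Finset.mul_sum, Finset.mul_sum]
    refine Finset.sum_le_sum fun a _ => ?_
    have h2 : 2 / (F.k 0 a * F.g a) ≤ K1 := by
      rw [hK1]
      exact Finset.single_le_sum (f := fun x => 2 / (F.k 0 x * F.g x))
        (fun x hx => div_nonneg (by norm_num) (hkg x hx).le) a.2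
    have h3 : φ a = 1 / K * f a := by rw [hφ]; simp only; rw [ex_mem]
    have h4 := hkg a a.2
    rw [h3]
    calc 2 * ((1 / K * f a) ^ 2 / (F.k 0 a * F.g a)) =
          2 / (F.k 0 a * F.g a) * ((1 / K) ^ 2 * f a ^ 2) := by ring
      _ ≤ K1 * ((1 / K) ^ 2 * f a ^ 2) := by gcongr
      _ = (1 / K) ^ 2 * (K1 * f a ^ 2) := by ring
  have e3 : (∑ x, |φ x|) ^ 2 ≤ (1 / K) ^ 2 * (F.Q.card * S) := by
    have h2 : ∑ x, |φ x| = 1 / K * ∑ a : F.Q, |f a| := by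
      rw [sum_out F.Q (fun x => |φ x|) fun x hx => by
        rw [hφ]; simp only; rw [ex_out _ _ x hx, mul_zero, abs_zero], Finset.mul_sum]
      refine Finset.sum_congr rfl fun a _ => ?_
      rw [hφ]; simp only; rw [ex_mem, abs_mul, abs_of_pos (by positivity : 0 < 1 / K)]
    have h3 : (∑ a : F.Q, |f a|) ^ 2 ≤ F.Q.card * S := by
      have := sq_sum_le_card_mul_sum_sq (s := (Finset.univ : Finset F.Q)) (f := fun a => |f a|)
      simp only [sq_abs] at this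
      rw [hsq, Finset.card_univ, Fintype.card_coe] at this
      exact this
    rw [h2, mul_pow]
    gcongr
  have e5 : ∀ Z : Finset X, (∑ x ∈ Z, |φ x|) ^ 2 ≤ (∑ x, |φ x|) ^ 2 := fun Z =>
    pow_le_pow_left₀ (Finset.sum_nonneg fun x _ => abs_nonneg _)
      (Finset.sum_le_sum_of_subset_of_nonneg (Finset.subset_univ _) fun x _ _ => abs_nonneg _) 2
  have e6 : F.s1 * (∑ x ∈ F.Q ∩ F.Yg, |φ x|) ^ 2 + F.s3 * (∑ x ∈ F.Q \ F.Yg, |φ x|) ^ 2 ≤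
      (1 / K) ^ 2 * ((F.s1 + F.s3) * F.Q.card * S) := by
    calc F.s1 * (∑ x ∈ F.Q ∩ F.Yg, |φ x|) ^ 2 + F.s3 * (∑ x ∈ F.Q \ F.Yg, |φ x|) ^ 2 ≤
          F.s1 * ((1 / K) ^ 2 * (F.Q.card * S)) + F.s3 * ((1 / K) ^ 2 * (F.Q.card * S)) :=
          add_le_add (mul_le_mul_of_nonneg_left ((e5 _).trans e3) hs1)
            (mul_le_mul_of_nonneg_left ((e5 _).trans e3) hs3)
      _ = _ := by ring
  rw [qf_cp]
  have e4 : (1 / K) ^ 2 * (K1 * S) + (1 / K) ^ 2 * ((F.s1 + F.s3) * F.Q.card * S) ≤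
      1 / K * S := by
    have h5 : K1 + (F.s1 + F.s3) * F.Q.card ≤ K := by rw [hK]; linarith
    calc (1 / K) ^ 2 * (K1 * S) + (1 / K) ^ 2 * ((F.s1 + F.s3) * F.Q.card * S) =
          (1 / K) ^ 2 * S * (K1 + (F.s1 + F.s3) * F.Q.card) := by ring
      _ ≤ (1 / K) ^ 2 * S * K := by gcongr
      _ = 1 / K * S := by field_simp
  rw [e1] at h1
  linarith

section point

variable {D : Matrix F.Q F.Q ℝ}

/-- the property of `W` in NUB -/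
theorem W_prop (hD : Dᵀ * cp F.Q F.E0 * D = 1) (φ : X → ℝ) :
    ∃ f : X → ℝ, (∀ x, x ∉ F.Q → f x = 0) ∧
      qf (D * Dᵀ) (rs F.Q φ) ≤ 2 * ∑ x, f x * φ x - qf F.E0 f := by
  refine ⟨ex F.Q ((D * Dᵀ) *ᵥ rs F.Q φ), fun x hx => ex_out _ _ x hx, ?_⟩
  rw [dual_eq hD (rs F.Q φ), qf_cp, dot_rs]

/-- data of the ladder at a point -/
structure Ldr (D β : Matrix F.Q F.Q ℝ) (q : ℝ × (F.b → ℝ)) : Prop where
  inv : β * (D * Dᵀ + Matrix.diagonal fun a : F.Q => F.lam q.1 a) = 1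
  sym : βᵀ = β
  jet : HM (Bm F D) q β (fun _ => 0)
    (-(β * Matrix.diagonal (fun a : F.Q => deriv (fun t => F.lam t a) q.1) * β))
  nn : ∀ f, 0 ≤ qf β f
  le : ∀ f, qf β f ≤ qf (cp F.Q F.E0) f
  ge : ∀ f, qf (cp F.Q F.E0) f ≤ 2 * qf β f

theorem ldr (jal : JalStmt) (jma : JmaStmt) (h : F.Ok c₀ C₀)
    (hD : Dᵀ * cp F.Q F.E0 * D = 1) {q : ℝ × (F.b → ℝ)} (h0 : 0 ≤ q.1) (h1 : q.1 ≤ F.T)
    (hl : (∀ x, 0 ≤ F.lam q.1 x) ∧
      ∀ φ : X → ℝ, (∀ x, x ∉ F.Q → φ x = 0) → ∃ f : X → ℝ, (∀ x, x ∉ F.Q → f x = 0) ∧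
        ∑ x, F.lam q.1 x * φ x ^ 2 ≤ 2 * ∑ x, f x * φ x - qf F.E0 f) :
    ∃ β, Ldr D β q := by
  obtain ⟨β, b1, b2, b3, b4, b5, b6⟩ := lad jal jma q (cp F.Q F.E0) D
    (fun t (a : F.Q) => F.lam t a) 1 zero_le_one hD (fun a => (lam_jet h h0 h1 a).1)
    (fun a => hl.1 a) (fun f => by
      obtain ⟨f', hf', h2⟩ := hl.2 (ex F.Q f) fun x hx => ex_out _ _ x hx
      have h3 := dual_le hD (rs F.Q f') f
      have e1 : rs F.Q f' ⬝ᵥ f = ∑ x, f' x * ex F.Q f x := by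
        rw [dotProduct_comm, dot_rs]
        exact Finset.sum_congr rfl fun x _ => mul_comm _ _
      have e2 : qf (cp F.Q F.E0) (rs F.Q f') = qf F.E0 f' := by rw [qf_cp, ex_rs _ _ hf']
      have e3 : qf (Matrix.diagonal fun a : F.Q => F.lam q.1 a) f =
          ∑ x, F.lam q.1 x * ex F.Q f x ^ 2 := by
        rw [qf_dot, dotProduct, sum_out F.Q (fun x => F.lam q.1 x * ex F.Q f x ^ 2) fun x hx => by
          rw [ex_out _ _ x hx]; ring]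
        refine Finset.sum_congr rfl fun a _ => ?_
        rw [Matrix.mulVec_diagonal, ex_mem]
        ring
      rw [e1, e2] at h3
      rw [e3, one_mul]
      exact h2.trans h3)
  exact ⟨β, b1, b2, b3, b4, b5, fun f => by have := b6 f; linarith⟩

/-- the thresholds hold if the functional is less than one -/
theorem pt_of (h : F.Ok c₀ C₀) (hD : Dᵀ * cp F.Q F.E0 * D = 1) {β : Matrix F.Q F.Q ℝ}
    {q : ℝ × (F.b → ℝ)} (h0 : 0 ≤ q.1) (h1 : q.1 ≤ F.T) (hβ : Ldr D β q)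
    (hs : (F.Et q)ᵀ = F.Et q) (hG : uG F q ≤ 1) (hL : uL F q ≤ 1)
    (hX : uS (Dᵀ * (cp F.Q (F.Et q) - β) * D) F.ε₁ F.n < 1) :
    F.Pt q ∧ ∀ f : F.Q → ℝ, |qf (cp F.Q (F.Et q) - β) f| ≤ F.ε₁ * qf (cp F.Q F.E0) f := by
  obtain ⟨-, -, -, -, -, -, -, hδ, hLp, hω, -, hε0, -, -, -, hε1, hε1', hδY, hn, hnL⟩ := h.num
  have hX' : ∀ f : F.Q → ℝ, |qf (cp F.Q (F.Et q) - β) f| ≤ F.ε₁ * qf (cp F.Q F.E0) f := by
    refine trn_conj hD ?_ hε1 hn hX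
    rw [Matrix.transpose_sub, cp_trans _ _ hs, hβ.sym]
  have hsub : ∀ f : F.Q → ℝ, qf (cp F.Q (F.Et q) - β) f = qf (cp F.Q (F.Et q)) f - qf β f := by
    intro f
    rw [sub_eq_add_neg, qf_add, qf_neg]
    ring
  refine ⟨⟨⟨h0, h1⟩, ?_, ?_, ?_, ?_⟩, hX'⟩
  · intro x hx y hy
    exact of_nsq hδ hn hG (⟨x, hx⟩, ⟨y, hy⟩)
  · intro x hx
    have h2 := of_pow_sum (v := fun a : F.Q1 =>
      LaR (F.Gt q) F.R a / (LaR F.G0 F.R a + F.ω * F.L) / (fun _ : ℝ => (1 : ℝ)) q.1)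
      (fun a => by simp only [div_one]; exact div_nonneg (LaR_nonneg _ _ _) (ell_pos h _).le)
      (hn.trans hnL) hL ⟨x, hx⟩
    simp only [div_one] at h2
    exact (div_le_one (ell_pos h x)).1 h2
  · intro f hf
    have h2 := hX' (rs F.Q f)
    have h3 := hβ.le (rs F.Q f)
    have h4 := hβ.nn (rs F.Q f)
    rw [hsub, qf_cp, qf_cp, ex_rs _ _ hf] at h2
    rw [qf_cp, ex_rs _ _ hf] at h3
    rw [abs_le] at h2 ⊢
    have h5 : F.ε₁ * qf F.E0 f ≤ qf F.E0 f := by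
      have : 0 ≤ qf F.E0 f := h4.trans h3
      nlinarith
    constructor <;> linarith [h2.1, h2.2, h4.trans h3]
  · intro f φ hf hφ
    have hφQ : ∀ x, x ∉ F.Q → φ x = 0 := fun x hx => hφ x fun h' => hx (Finset.mem_inter.1 h').2
    have h2 := hX' (rs F.Q f)
    rw [hsub, qf_cp, qf_cp, ex_rs _ _ hf, abs_le] at h2
    have h3 := young hβ.inv hβ.sym hβ.nn (rs F.Q f) (rs F.Q φ)
    have e1 : rs F.Q f ⬝ᵥ rs F.Q φ = ∑ x, f x * φ x := by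
      rw [dot_rs, ex_rs _ _ hf]
    have e2 : qf (Matrix.diagonal fun a : F.Q => F.lam q.1 a) (rs F.Q φ) =
        ∑ x ∈ F.R, F.lam q.1 x * φ x ^ 2 := by
      have e3 : ∑ x ∈ F.R, F.lam q.1 x * φ x ^ 2 = ∑ x, F.lam q.1 x * φ x ^ 2 := by
        refine Finset.sum_subset (Finset.subset_univ _) fun x _ hx => ?_
        rw [hφ x hx]; ring
      rw [e3, qf_dot, dotProduct, sum_out F.Q (fun x => F.lam q.1 x * φ x ^ 2) fun x hx => by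
          rw [hφQ x hx]; ring]
      refine Finset.sum_congr rfl fun a _ => ?_
      rw [Matrix.mulVec_diagonal]
      unfold rs
      ring
    obtain ⟨f', hf', h4⟩ := W_prop hD φ
    have h5 := h.hS2 f' φ hf' hφ
    rw [e1, qf_add, e2] at h3
    have h6 : (1 + F.ε) * ∑ x ∈ F.R, φ x ^ 2 / (F.k 0 x * F.g x) +
        ∑ x ∈ F.R, F.lam q.1 x * φ x ^ 2 ≤
        (1 + F.ε) * ∑ x ∈ F.R, φ x ^ 2 / (F.k q.1 x * F.g x) := by
      rw [Finset.mul_sum, Finset.mul_sum, ← Finset.sum_add_distrib]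
      refine Finset.sum_le_sum fun x hx => ?_
      have hxA : x ∈ F.A := h.hQ.2.2 (Finset.mem_inter.1 hx).2
      have h7 := lam_le h h0 h1 hxA
      calc (1 + F.ε) * (φ x ^ 2 / (F.k 0 x * F.g x)) + F.lam q.1 x * φ x ^ 2 =
            ((1 + F.ε) * (1 / (F.k 0 x * F.g x)) + F.lam q.1 x) * φ x ^ 2 := by ring
        _ ≤ ((1 + F.ε) * (1 / (F.k q.1 x * F.g x))) * φ x ^ 2 :=
            mul_le_mul_of_nonneg_right h7 (sq_nonneg _)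
        _ = _ := by ring
    linarith [h2.1]

end point

end Pool.Agent.AFL.H48
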