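import Pool.Agent.Helper48_AFL.Pnt

/-!
# Block lemma FLO: the parts of the functional, jets and bounds
-/

set_option autoImplicit false
set_option linter.unusedSectionVars false

open MeasureTheory ProbabilityTheory Function Filter

open scoped ENNReal BigOperators Topology NNReal Matrix

noncomputable section

namespace Pool.Agent.AFL.H48

open Pool.Agent.LE.QF Pool.Agent.LE.QF.H40 Pool.Agent.AFJ Pool.Agent.ABY Pool.Agent.AN2.H48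

variable {X : Type} [Fintype X] [DecidableEq X]

/-! ### symmetry -/

theorem dl_symm {K : Matrix X X ℝ} (h : ∀ x y, K x y = K y x) : (Dl K)ᵀ = Dl K := by
  unfold Dl
  rw [Matrix.transpose_sub, Matrix.diagonal_transpose]
  congr 1
  ext x y
  exact h y x

theorem kk_symm {G : Matrix X X ℂ} (hs : ∀ x y, G x y = G y x) (x y : X) :
    KK G x y = KK G y x := by
  unfold KK; rw [hs]

theorem ee_sym {G : Matrix X X ℂ} (hs : ∀ x y, G x y = G y x) (κ : X → ℝ) (A : Finset X) :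
    (EE G κ A)ᵀ = EE G κ A := by
  refine dl_symm fun x y => ?_
  unfold cd
  rw [kk_symm hs x y]
  by_cases h : x ∈ A ∧ y ∈ A
  · rw [if_pos h, if_pos h.symm]; ring
  · rw [if_neg h, if_neg fun h' => h h'.symm]

theorem ec_sym {G : Matrix X X ℂ} (hs : ∀ x y, G x y = G y x) (κ : X → ℝ) (A : Finset X) (c : X) :
    (Ec G κ A c)ᵀ = Ec G κ A c := by
  refine dl_symm fun x y => ?_
  have e1 : dK G c x y = dK G c y x := by
    unfold dK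
    rw [hs x y, hs x c, hs c y]
    congr 2
    ring_nf
  unfold cdc
  rw [e1]
  by_cases h : x ∈ A ∧ y ∈ A
  · rw [if_pos h, if_pos h.symm]; ring
  · rw [if_neg h, if_neg fun h' => h h'.symm]

theorem er_sym {G : Matrix X X ℂ} (hs : ∀ x y, G x y = G y x) (κ g : X → ℝ) (μ : X → ℂ)
    (A b : Finset X) : (Dl (ee G κ g μ A b))ᵀ = Dl (ee G κ g μ A b) := by
  refine dl_symm fun x y => ?_
  unfold ee
  rw [kk_symm hs x y, Pool.Agent.AWD.EK_symm hs μ x y]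
  by_cases h : x ∈ A ∧ y ∈ A
  · rw [if_pos h, if_pos h.symm]; ring
  · rw [if_neg h, if_neg fun h' => h h'.symm]

variable {F : Fl X} {c₀ C₀ : ℝ}

theorem gt_symm (h : F.Ok c₀ C₀) (r : ℝ × (F.b → ℝ)) (x y : X) : F.Gt r x y = F.Gt r y x := by
  have h1 : (F.Gt r)ᵀ = F.Gt r := by
    unfold Fl.Gt Blk.G
    rw [Matrix.transpose_nonsing_inv]
    congr 1
    rw [Matrix.transpose_add, Matrix.diagonal_transpose]
    congr 1
    ext i j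
    show ((F.H j i : ℝ) : ℂ) = ((F.H i j : ℝ) : ℂ)
    rw [h.sym]
  exact congrFun (congrFun h1 y) x

theorem et_symm (h : F.Ok c₀ C₀) (r : ℝ × (F.b → ℝ)) : (F.Et r)ᵀ = F.Et r :=
  ee_sym (gt_symm h r) _ _

theorem bm_symm (D : Matrix F.Q F.Q ℝ) (r : ℝ × (F.b → ℝ)) : (Bm F D r)ᵀ = Bm F D r := by
  unfold Bm
  rw [Matrix.transpose_nonsing_inv]
  congr 1
  rw [Matrix.transpose_add, Matrix.diagonal_transpose, Matrix.transpose_mul,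
    Matrix.transpose_transpose]

theorem uX_nonneg (h : F.Ok c₀ C₀) (D : Matrix F.Q F.Q ℝ) (r : ℝ × (F.b → ℝ)) : 0 ≤ uX F D r := by
  refine uS_nonneg ?_ _ _
  rw [Matrix.transpose_mul, Matrix.transpose_mul, Matrix.transpose_transpose,
    Matrix.transpose_sub, cp_trans _ _ (et_symm h r), bm_symm, mul_assoc]

/-! ### the rates are nonnegative -/

theorem mus_nonneg (h : F.Ok c₀ C₀) : 0 ≤ F.μs := by
  obtain ⟨-, -, -, -, -, -, hN, hδ, -⟩ := h.num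
  unfold Fl.μs
  positivity

theorem aG_nonneg (h : F.Ok c₀ C₀) : 0 ≤ F.aG := by
  obtain ⟨hκ, -, hr, -, -, -, hN, hδ, hL, -⟩ := h.num
  have := mus_nonneg h
  unfold Fl.aG
  have : 0 ≤ F.r := by linarith
  positivity

theorem aK_nonneg (h : F.Ok c₀ C₀) : 0 ≤ F.aK C₀ := by
  obtain ⟨hκ, -, hr, -, -, hC₀, hN, hδ, hL, hω, -, hε, -, hs1, hs2, hε₁, -⟩ := h.num
  unfold Fl.aK
  have : 0 ≤ F.r := by linarith
  have : 0 ≤ C₀ := by linarith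
  positivity

theorem sg_nonneg (h : F.Ok c₀ C₀) : 0 ≤ F.sg C₀ := by
  obtain ⟨hκ, -, hr, -, -, hC₀, hN, hδ, hL, hω, -, hε, -, hs1, hs2, hε₁, -⟩ := h.num
  unfold Fl.sg
  positivity

theorem aL_nonneg (h : F.Ok c₀ C₀) : 0 ≤ F.aL C₀ := by
  have h1 := aK_nonneg h
  have h2 := h.hz.1
  have h3 := h.num.1
  have h4 : 0 < F.L0 := by linarith [h.hL0.1]
  unfold Fl.aL
  positivity

theorem yd_nonneg (h : F.Ok c₀ C₀) {C : ℝ} (hC : 1 ≤ C) : 0 ≤ F.yd C := by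
  have h1 := mus_nonneg h
  have h3 := h.num.1
  unfold Fl.yd
  have : 0 ≤ C := by linarith
  positivity

theorem yn_nonneg {C : ℝ} (hC : 1 ≤ C) : 0 ≤ F.yn C := by
  unfold Fl.yn
  have : 0 ≤ C := by linarith
  positivity

theorem aY_nonneg (h : F.Ok c₀ C₀) {C : ℝ} (hC : 1 ≤ C) : 0 ≤ F.aY C := by
  have h1 := yd_nonneg h hC
  have h2 := yn_nonneg (F := F) hC
  have h3 : 0 < F.δY := h.num.2.2.2.2.2.2.2.2.2.2.2.2.2.2.2.2.2.1
  unfold Fl.aY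
  positivity

theorem nu_nonneg (h : F.Ok c₀ C₀) : 0 ≤ F.nu c₀ := by
  obtain ⟨hκ, -, hr, hc, -, hC₀, hN, hδ, hL, hω, -, hε, -, hs1, hs2, hε₁, -⟩ := h.num
  obtain ⟨hs3, ho⟩ := h.hs3
  unfold Fl.nu
  have : 0 ≤ F.r := by linarith
  positivity

theorem aS_nonneg (h : F.Ok c₀ C₀) : 0 ≤ F.aS c₀ := by
  obtain ⟨hκ, -, hr, hc, -, hC₀, hN, hδ, hL, hω, -, hε, -, hs1, hs2, hε₁, -⟩ := h.num
  have h1 := mus_nonneg h
  have h2 := nu_nonneg h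
  unfold Fl.aS
  have : 0 ≤ F.r := by linarith
  positivity

theorem rt_nonneg (h : F.Ok c₀ C₀) {C : ℝ} (hC : 1 ≤ C) : 0 ≤ F.rt c₀ C₀ C := by
  have h1 := aG_nonneg h
  have h2 := aL_nonneg h
  have h3 := aY_nonneg h hC
  have h4 := aS_nonneg h
  unfold Fl.rt
  positivity

theorem cd_nonneg : 0 ≤ F.cd := by
  unfold Fl.cd
  positivity

/-! ### jets -/

variable {q : ℝ × (F.b → ℝ)}

/-- entries -/
theorem jG (pwu : PwuStmt) (h : F.Ok c₀ C₀)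
    (hg : ∀ x ∈ F.Q1, ∀ y ∈ F.Q1, ∃ (g' : F.b → ℂ) (l' : ℂ),
      HJ (fun r => F.Gt r x y - F.G0 x y) q (F.Gt q x y - F.G0 x y) g' l' ∧
      ‖l'‖ ≤ F.μs * F.r / F.κv ∧ ∑ c, ‖g' c‖ ^ 2 ≤ F.L) :
    ∃ (g' : F.b → ℝ) (l' : ℝ), HJ (uG F) q (uG F q) g' l' ∧
      l' ≤ F.aG * (uG F q + (F.Q1.card : ℝ) ^ 2 * (1 / 4) ^ F.n) := by
  obtain ⟨hκ, -, hr, -, -, -, hN, hδ, hL, -⟩ := h.num
  have h1 : ∀ p : F.Q1 × F.Q1, ∃ (g' : F.b → ℂ) (l' : ℂ),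
      HJ (fun r => F.Gt r p.1 p.2 - F.G0 p.1 p.2) q (F.Gt q p.1 p.2 - F.G0 p.1 p.2) g' l' ∧
      ‖l'‖ ≤ F.μs * F.r / F.κv ∧ ∑ c, ‖g' c‖ ^ 2 ≤ F.L := fun p => hg p.1 p.1.2 p.2 p.2.2
  choose g' l' h2 h3 h4 using h1
  have hr' : 0 ≤ F.r := by linarith
  obtain ⟨a, l, h5, h6⟩ := pwu F.b q (F.Q1 × F.Q1) (fun p r => F.Gt r p.1 p.2 - F.G0 p.1 p.2)
    (fun p => F.Gt q p.1 p.2 - F.G0 p.1 p.2) l' g' F.δ (F.μs * F.r / F.κv) F.L F.n hδ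
    (div_nonneg (mul_nonneg (mus_nonneg h) hr') hκ.le) hL.le
    h.num.2.2.2.2.2.2.2.2.2.2.2.2.2.2.2.2.2.2.1 h2 h3 h4
  refine ⟨a, l, h5, h6.trans (le_of_eq ?_)⟩
  rw [Fintype.card_prod, Fintype.card_coe, Fl.aG, uG]
  push_cast
  ring

/-- `Λ` -/
theorem jL (lmu : LmuStmt) (h : F.Ok c₀ C₀)
    (hg : ∀ x ∈ F.Q1, ∃ (g' : F.b → ℝ) (l' : ℝ),
      HJ (fun r => LaR (F.Gt r) F.R x / (LaR F.G0 F.R x + F.ω * F.L)) q
        (LaR (F.Gt q) F.R x / (LaR F.G0 F.R x + F.ω * F.L)) g' l' ∧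
      l' ≤ 6 * (F.aK C₀ * (LaR (F.Gt q) F.R x / (LaR F.G0 F.R x + F.ω * F.L)) + F.sg C₀) +
        2 * F.z * (1 + LaR (F.Gt q) F.R x / (LaR F.G0 F.R x + F.ω * F.L)) ∧
      ∑ c, g' c ^ 2 ≤ 16 * (LaR (F.Gt q) F.R x / (LaR F.G0 F.R x + F.ω * F.L)) *
        (F.aK C₀ * (LaR (F.Gt q) F.R x / (LaR F.G0 F.R x + F.ω * F.L)) + F.sg C₀)) :
    ∃ (g' : F.b → ℝ) (l' : ℝ), HJ (uL F) q (uL F q) g' l' ∧
      l' ≤ F.aL C₀ * (uL F q + (F.Q1.card : ℝ) * (1 / 4) ^ F.nL) := by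
  have hκ := h.num.1
  have hn : 1 ≤ F.nL := h.num.2.2.2.2.2.2.2.2.2.2.2.2.2.2.2.2.2.2.1.trans
    h.num.2.2.2.2.2.2.2.2.2.2.2.2.2.2.2.2.2.2.2
  have haK := aK_nonneg h
  have hsg := sg_nonneg h
  have hz := h.hz.1
  have hL0 := h.hL0
  have h1 : ∀ a : F.Q1, ∃ (g' : F.b → ℝ) (l' : ℝ),
      HJ (fun r => LaR (F.Gt r) F.R a / (LaR F.G0 F.R a + F.ω * F.L)) q
        (LaR (F.Gt q) F.R a / (LaR F.G0 F.R a + F.ω * F.L)) g' l' ∧
      l' ≤ 6 * (F.aK C₀ * (LaR (F.Gt q) F.R a / (LaR F.G0 F.R a + F.ω * F.L)) + F.sg C₀) +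
        2 * F.z * (1 + LaR (F.Gt q) F.R a / (LaR F.G0 F.R a + F.ω * F.L)) ∧
      ∑ c, g' c ^ 2 ≤ 16 * (LaR (F.Gt q) F.R a / (LaR F.G0 F.R a + F.ω * F.L)) *
        (F.aK C₀ * (LaR (F.Gt q) F.R a / (LaR F.G0 F.R a + F.ω * F.L)) + F.sg C₀) :=
    fun a => hg a a.2
  choose g' l' h2 h3 h4 using h1
  have hv : ∀ a : F.Q1, 0 ≤ LaR (F.Gt q) F.R a / (LaR F.G0 F.R a + F.ω * F.L) := fun a =>
    div_nonneg (LaR_nonneg _ _ _) (ell_pos h _).le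
  -- the constant part
  have hc : 16 * F.sg C₀ + 2 * F.z ≤ 1 / F.κv * (1 / F.L0) := by
    have h5 : 0 < F.L0 := by linarith [hL0.1]
    rw [← mul_one_div_comm_aux, le_div_iff₀ (mul_pos hκ h5)]
    linarith [hL0.2]
  obtain ⟨a, l, h5, h6⟩ := lmu F.b q F.Q1
    (fun a r => LaR (F.Gt r) F.R a / (LaR F.G0 F.R a + F.ω * F.L))
    (fun a => LaR (F.Gt q) F.R a / (LaR F.G0 F.R a + F.ω * F.L)) l' g' (fun _ => 1) 1 F.κv 1 F.L0
    (F.κv * (16 * F.aK C₀ + 2 * F.z)) F.nL zero_le_one hκ one_pos hL0.1 (by positivity) hn h2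
    contDiffAt_const rfl (by simp) hv
    (fun a => by
      refine (h3 a).trans ?_
      have h7 : 0 ≤ Real.sqrt (1 * (LaR (F.Gt q) F.R a / (LaR F.G0 F.R a + F.ω * F.L)) / F.L0) :=
        Real.sqrt_nonneg _
      have h8 := hv a
      set f := LaR (F.Gt q) F.R a / (LaR F.G0 F.R a + F.ω * F.L)
      have h9 : 1 / F.κv * (F.κv * (16 * F.aK C₀ + 2 * F.z) * f) = (16 * F.aK C₀ + 2 * F.z) * f := by
        field_simp
      have h10 : 0 ≤ 1 / F.κv * Real.sqrt (1 * f / F.L0) := by positivity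
      have h12 : 1 / F.κv * (1 / F.L0 + Real.sqrt (1 * f / F.L0) +
          F.κv * (16 * F.aK C₀ + 2 * F.z) * f) = 1 / F.κv * (1 / F.L0) +
          1 / F.κv * Real.sqrt (1 * f / F.L0) + (16 * F.aK C₀ + 2 * F.z) * f := by
        rw [mul_add, mul_add, h9]
      rw [h12]
      nlinarith [mul_nonneg haK h8])
    (fun a => by
      refine (h4 a).trans ?_
      have h7 : 0 ≤ Real.sqrt (1 * (LaR (F.Gt q) F.R a / (LaR F.G0 F.R a + F.ω * F.L)) / F.L0) :=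
        Real.sqrt_nonneg _
      have h8 := hv a
      set f := LaR (F.Gt q) F.R a / (LaR F.G0 F.R a + F.ω * F.L)
      have h9 : 1 / F.κv * (F.κv * (16 * F.aK C₀ + 2 * F.z) * f) = (16 * F.aK C₀ + 2 * F.z) * f := by
        field_simp
      have h10 : 0 ≤ 1 / F.κv * Real.sqrt (1 * f / F.L0) := by positivity
      have h11 : 16 * f * (F.aK C₀ * f + F.sg C₀) = f * (16 * F.aK C₀ * f + 16 * F.sg C₀) := by
        ring
      rw [h11]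
      refine mul_le_mul_of_nonneg_left ?_ h8
      have h12 : 1 / F.κv * (1 / F.L0 + Real.sqrt (1 * f / F.L0) +
          F.κv * (16 * F.aK C₀ + 2 * F.z) * f) = 1 / F.κv * (1 / F.L0) +
          1 / F.κv * Real.sqrt (1 * f / F.L0) + (16 * F.aK C₀ + 2 * F.z) * f := by
        rw [mul_add, mul_add, h9]
      rw [h12]
      nlinarith [mul_nonneg hz h8])
  refine ⟨a, l, h5, h6.trans (le_of_eq ?_)⟩
  rw [Fintype.card_coe, Fl.aL, uL]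
where
  mul_one_div_comm_aux {a b : ℝ} : 1 / (a * b) = 1 / a * (1 / b) := by
    rw [one_div_mul_one_div]

/-- the pair of block Y -/
theorem jYK (jal : JalStmt) (pwu : PwuStmt) (h : F.Ok c₀ C₀) {C : ℝ} (hC : 1 ≤ C)
    (hg : ∀ a ∈ F.Rg,
      (∃ (g' : F.b → ℂ) (l' : ℂ), HJ (fun r => vir (BB (F.Gt r)) (F.Pf r.1) F.w a) q
          (vir (BB (F.Gt q)) (F.Pf q.1) F.w a) g' l' ∧ ∑ c, ‖g' c‖ ^ 2 ≤ F.yn C ∧ ‖l'‖ ≤ F.yd C) ∧
      ∃ (g' : F.b → ℝ) (l' : ℝ), HJ (fun r => vir (KK (F.Gt r)) (F.Pf r.1) F.w a) q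
          (vir (KK (F.Gt q)) (F.Pf q.1) F.w a) g' l' ∧ ∑ c, g' c ^ 2 ≤ F.yn C ∧ |l'| ≤ F.yd C) :
    (∃ (g' : F.b → ℝ) (l' : ℝ), HJ (uY F) q (uY F q) g' l' ∧
      l' ≤ F.aY C * (uY F q + (F.Q1.card : ℝ) * (1 / 4) ^ F.n)) ∧
    ∃ (g' : F.b → ℝ) (l' : ℝ), HJ (uK F) q (uK F q) g' l' ∧
      l' ≤ F.aY C * (uK F q + (F.Q1.card : ℝ) * (1 / 4) ^ F.n) := by
  have hδY : 0 < F.δY := h.num.2.2.2.2.2.2.2.2.2.2.2.2.2.2.2.2.2.1
  have hn : 1 ≤ F.n := h.num.2.2.2.2.2.2.2.2.2.2.2.2.2.2.2.2.2.2.1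
  have hcard : ((F.Q1 ∩ F.Rg).card : ℝ) ≤ F.Q1.card := by
    exact_mod_cast Finset.card_le_card Finset.inter_subset_left
  have hpow : (0 : ℝ) ≤ (1 / 4) ^ F.n := by positivity
  have hY := aY_nonneg h hC
  constructor
  · have h1 : ∀ a : (F.Q1 ∩ F.Rg : Finset X), ∃ (g' : F.b → ℂ) (l' : ℂ),
        HJ (fun r => vir (BB (F.Gt r)) (F.Pf r.1) F.w a - vir (BB F.G0) F.P0 F.w a) q
          (vir (BB (F.Gt q)) (F.Pf q.1) F.w a - vir (BB F.G0) F.P0 F.w a) g' l' ∧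
        ‖l'‖ ≤ F.yd C ∧ ∑ c, ‖g' c‖ ^ 2 ≤ F.yn C := by
      intro a
      obtain ⟨g', l', j1, j2, j3⟩ := (hg a (Finset.mem_inter.1 a.2).2).1
      have j4 := ((jal F.b ℂ q).2.2.1 _ _ _ _ _ _ _ _ j1
        ((jal F.b ℂ q).1 (vir (BB F.G0) F.P0 F.w a))).2.1
      refine ⟨_, _, j4, ?_, ?_⟩
      · simpa using j3
      · simpa using j2
    choose g' l' h2 h3 h4 using h1
    obtain ⟨a, l, h5, h6⟩ := pwu F.b q (F.Q1 ∩ F.Rg : Finset X) _ _ l' g' F.δY (F.yd C) (F.yn C)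
      F.n hδY (yd_nonneg h hC) (yn_nonneg hC) hn h2 h3 h4
    refine ⟨a, l, h5, h6.trans ?_⟩
    rw [Fintype.card_coe]
    refine mul_le_mul_of_nonneg_left ?_ hY
    refine add_le_add le_rfl (mul_le_mul_of_nonneg_right hcard hpow)
  · have h1 : ∀ a : (F.Q1 ∩ F.Rg : Finset X), ∃ (g' : F.b → ℂ) (l' : ℂ),
        HJ (fun r => ((vir (KK (F.Gt r)) (F.Pf r.1) F.w a - vir (KK F.G0) F.P0 F.w a : ℝ) : ℂ)) q
          ((vir (KK (F.Gt q)) (F.Pf q.1) F.w a - vir (KK F.G0) F.P0 F.w a : ℝ) : ℂ) g' l' ∧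
        ‖l'‖ ≤ F.yd C ∧ ∑ c, ‖g' c‖ ^ 2 ≤ F.yn C := by
      intro a
      obtain ⟨g', l', j1, j2, j3⟩ := (hg a (Finset.mem_inter.1 a.2).2).2
      have j4 := ((jal F.b ℝ q).2.2.1 _ _ _ _ _ _ _ _ j1
        ((jal F.b ℝ q).1 (vir (KK F.G0) F.P0 F.w a))).2.1
      have j5 := ((jal F.b ℂ q).2.2.2.2.1 _ _ _ _ j4).1
      refine ⟨_, _, j5, ?_, ?_⟩
      · refine le_trans (le_of_eq ?_) j3
        simp
      · refine le_trans (le_of_eq ?_) j2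
        refine Finset.sum_congr rfl fun c _ => ?_
        simp
    choose g' l' h2 h3 h4 using h1
    obtain ⟨a, l, h5, h6⟩ := pwu F.b q (F.Q1 ∩ F.Rg : Finset X) _ _ l' g' F.δY (F.yd C) (F.yn C)
      F.n hδY (yd_nonneg h hC) (yn_nonneg hC) hn h2 h3 h4
    refine ⟨a, l, h5, h6.trans ?_⟩
    rw [Fintype.card_coe]
    refine mul_le_mul_of_nonneg_left ?_ hY
    refine add_le_add le_rfl (mul_le_mul_of_nonneg_right hcard hpow)

/-- the jet of the compressed form -/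
theorem jE (jal : JalStmt) (bkj : BkjStmt) (bej : BejStmt) (h : F.Ok c₀ C₀)
    (h0 : 0 ≤ q.1) (h1 : q.1 ≤ F.T) (hB : BJ q F.Gt F.k (F.Gt q) (F.k q.1) F.mb) :
    HM (fun r => cp F.Q (F.Et r)) q (cp F.Q (F.Et q))
      (fun c => cp F.Q (Ec (F.Gt q) (F.k q.1) F.A (c : X)))
      (-(cp F.Q (F.Et q) * Matrix.diagonal (fun a : F.Q => deriv (fun t => F.lam t a) q.1) *
        cp F.Q (F.Et q)) +
        cp F.Q (Dl (ee (F.Gt q) (F.k q.1) F.g (mub (F.Gt q) F.mb F.b) F.A F.b))) := by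
  have hJ := bej jal bkj X F.b F.A q F.Gt F.k (F.Gt q) (F.k q.1) F.mb hB (bA h)
    (fun x => (h.pos q.1 x h0 h1).ne')
  have e1 : (fun a : F.Q => deriv (fun t => F.lam t a) q.1) =
      fun a : F.Q => (fun x => ind F.b x / F.k q.1 x ^ 2) (a : X) := by
    funext a
    exact (lam_jet h h0 h1 a).2
  rw [e1, ← cp_diag F.Q _ _ (fun x => ind F.b x / F.k q.1 x ^ 2) (fun x hx => by
    have : x ∉ F.b := fun h' => hx (h.hQ.2.1 (h.hQ.1 h'))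
    simp [ind, this])]
  exact fun a b => hJ a b

/-- the form -/
theorem jX (jal : JalStmt) (jma : JmaStmt) (ytj : YtjStmt) (bkj : BkjStmt) (bej : BejStmt)
    (h : F.Ok c₀ C₀) {D β : Matrix F.Q F.Q ℝ} (hD : Dᵀ * cp F.Q F.E0 * D = 1)
    (h0 : 0 ≤ q.1) (h1 : q.1 ≤ F.T) (hβ : Ldr D β q)
    (hB : BJ q F.Gt F.k (F.Gt q) (F.k q.1) F.mb) (hP : F.Pt q)
    (hdr1 : ∀ f : X → ℝ, (∀ x, x ∉ F.Q → f x = 0) →
      |qf (Dl (ee (F.Gt q) (F.k q.1) F.g (mub (F.Gt q) F.mb F.b) F.A F.b)) f| ≤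
        2 * ((2 * ((F.N + 2) * F.δ) + 4 * F.μs) / F.κv) * qf F.E0 f)
    (hdr2 : ∀ f : X → ℝ,
      ∑ x ∈ F.b, ((F.E0 *ᵥ f) x / F.k q.1 x) ^ 2 ≤ 4 * F.r / F.κv * qf F.E0 f)
    (hnu : ∀ W : (X → ℝ) → ℝ,
      (∀ φ : X → ℝ, (∀ x, x ∉ F.Q → φ x = 0) → ∃ f : X → ℝ, (∀ x, x ∉ F.Q → f x = 0) ∧
        W φ ≤ 2 * ∑ x, f x * φ x - qf F.E0 f) →
      ∀ f : X → ℝ, (∀ x, x ∉ F.Q → f x = 0) →
        ∑ c ∈ F.b, W (fun x => if x ∈ F.Q then (Ec (F.Gt q) (F.k q.1) F.A c *ᵥ f) x else 0) ≤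
          F.nu c₀ * qf F.E0 f) :
    ∃ (g' : F.b → ℝ) (l' : ℝ), HJ (uX F D) q (uX F D q) g' l' ∧
      l' ≤ F.aS c₀ * (uX F D q + (F.Q.card : ℝ) * (1 / 4) ^ F.n) := by
  obtain ⟨hκ, -, hr, hc, -, hC₀, hN, hδ, hL, hω, -, hε, -, hs1, hs2, hε₁, -, -, hn, -⟩ := h.num
  have hs := gt_symm h q
  have hμ := mus_nonneg h
  have hE0s : (F.E0)ᵀ = F.E0 := et_symm h (0, 0)
  have hqX : ∀ f : F.Q → ℝ, qf (cp F.Q F.E0) f = qf F.E0 (ex F.Q f) := fun f => qf_cp _ _ _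
  have hexo : ∀ f : F.Q → ℝ, ∀ x, x ∉ F.Q → ex F.Q f x = 0 := fun f x hx => ex_out _ _ x hx
  have hr' : 0 ≤ F.r := by linarith
  obtain ⟨a, l, h5, h6⟩ := fru ytj jal jma q (fun r => cp F.Q (F.Et r)) (Bm F D) (cp F.Q F.E0) D
    (cp F.Q (F.Et q)) β (cp F.Q (Dl (ee (F.Gt q) (F.k q.1) F.g (mub (F.Gt q) F.mb F.b) F.A F.b)))
    (Matrix.diagonal (fun a : F.Q => deriv (fun t => F.lam t a) q.1))
    (fun c => cp F.Q (Ec (F.Gt q) (F.k q.1) F.A (c : X)))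
    (4 * F.r / F.κv) (2 * ((2 * ((F.N + 2) * F.δ) + 4 * F.μs) / F.κv)) F.ε₁ (F.nu c₀) F.n
    (by positivity) (by positivity) hε₁ (nu_nonneg h) hn (cp_trans _ _ hE0s) hD
    (cp_trans _ _ (et_symm h q)) hβ.sym (cp_trans _ _ (er_sym hs _ _ _ _ _))
    (Matrix.diagonal_transpose _) (fun c => cp_trans _ _ (ec_sym hs _ _ _))
    (jE jal bkj bej h h0 h1 hB) hβ.jet
    (fun f => by rw [hqX, qf_cp]; exact hP.fru _ (hexo f))
    (fun f => by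
      have h7 := hβ.nn f
      have h8 := hβ.le f
      rw [abs_of_nonneg h7]
      linarith)
    (fun f => by rw [hqX, qf_cp]; exact hdr1 _ (hexo f))
    (fun f => by
      rw [hqX, cp_mulVec]
      have e1 : qf (Matrix.diagonal (fun a : F.Q => deriv (fun t => F.lam t a) q.1))
          (rs F.Q (F.E0 *ᵥ ex F.Q f)) =
          ∑ x ∈ F.b, ((F.E0 *ᵥ ex F.Q f) x / F.k q.1 x) ^ 2 := by
        have e2 : ∑ x ∈ F.b, ((F.E0 *ᵥ ex F.Q f) x / F.k q.1 x) ^ 2 =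
            ∑ x, ind F.b x * ((F.E0 *ᵥ ex F.Q f) x / F.k q.1 x) ^ 2 := by
          rw [← Finset.sum_subset (Finset.subset_univ F.b) fun x _ hx => by
            simp [ind, hx]]
          exact Finset.sum_congr rfl fun x hx => by simp [ind, hx]
        rw [e2, sum_out F.Q (fun x => ind F.b x * ((F.E0 *ᵥ ex F.Q f) x / F.k q.1 x) ^ 2)
          fun x hx => by
            have : x ∉ F.b := fun h' => hx (h.hQ.2.1 (h.hQ.1 h'))
            simp [ind, this]]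
        rw [qf_dot, dotProduct]
        refine Finset.sum_congr rfl fun a _ => ?_
        rw [Matrix.mulVec_diagonal, (lam_jet h h0 h1 a).2]
        unfold rs
        ring
      rw [e1, abs_of_nonneg (Finset.sum_nonneg fun x _ => sq_nonneg _)]
      exact hdr2 _)
    (fun f => by
      have h7 := hnu (fun φ => qf (D * Dᵀ) (rs F.Q φ)) (fun φ _ => W_prop hD φ) (ex F.Q f)
        (hexo f)
      rw [hqX]
      refine le_trans (le_of_eq ?_) h7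
      rw [← Finset.sum_coe_sort F.b]
      refine Finset.sum_congr rfl fun c _ => ?_
      rw [cp_mulVec]
      congr 1
      funext a
      unfold rs
      simp)
  have hval : Bm F D q = β := by
    ext i j
    exact (hβ.jet i j).vl
  refine ⟨a, l, ?_, ?_⟩
  · have e1 : uX F D q = uS (Dᵀ * (cp F.Q (F.Et q) - β) * D) F.ε₁ F.n := by
      unfold uX; rw [hval]
    rw [e1]
    exact h5
  · refine h6.trans (le_of_eq ?_)
    have e1 : uX F D q = uS (Dᵀ * (cp F.Q (F.Et q) - β) * D) F.ε₁ F.n := by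
      unfold uX; rw [hval]
    rw [Fintype.card_coe, ← e1, Fl.aS]

end Pool.Agent.AFL.H48
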